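import Pool.Agent.Work.MP_433a35_co.GB.TFC.KM2_0

set_option maxRecDepth 100000
set_option linter.unusedVariables false

namespace MP433Sys.TFC

theorem mall2 : ∀ i < 1, mergeOK cfg2 (col i chs2.flatten) = true :=
  kall_succ (kall_zero _) m2_0

def names2 : List (List Src) := [pT2,
 p2_0_0,
 pR2_0]

theorem lev2 {V : Type*} [Fintype V] (T : Sys hS V) (hT : Hyp T cfg2) :
    -(if 2 < 4 then (0 : ℝ) else 9223372036854775808) * T.bad * T.D ^ (2 - 4) ≤ srcVal T 2 names2.flatten :=
  lev_of T cfg2_ok hT chs2.flatten (good2 T hT) 1 len2 mall2 names2 9223372036854775808 (by decide +kernel) rfl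

end MP433Sys.TFC
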