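import Pool.Agent.Work.MP_433a35_co.GB.TFC.KM3_0

set_option maxRecDepth 100000
set_option linter.unusedVariables false

namespace MP433Sys.TFC

theorem mall3 : ∀ i < 1, mergeOK cfg3 (col i chs3.flatten) = true :=
  kall_succ (kall_zero _) m3_0

def names3 : List (List Src) := [pT3,
 p3_0_0,
 pR3_0]

theorem lev3 {V : Type*} [Fintype V] (T : Sys hS V) (hT : Hyp T cfg3) :
    -(if 3 < 4 then (0 : ℝ) else 36895874862914162932) * T.bad * T.D ^ (3 - 4) ≤ srcVal T 3 names3.flatten :=
  lev_of T cfg3_ok hT chs3.flatten (good3 T hT) 1 len3 mall3 names3 36895874862914162932 (by decide +kernel) rfl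

end MP433Sys.TFC
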