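import Pool.Agent.Work.MP_433a35_co.GB.TFC.KM4_0

set_option maxRecDepth 100000
set_option linter.unusedVariables false

namespace MP433Sys.TFC

theorem mall4 : ∀ i < 1, mergeOK cfg4 (col i chs4.flatten) = true :=
  kall_succ (kall_zero _) m4_0

def names4 : List (List Src) := [pT4,
 p4_0_0,
 p4_1_0,
 p4_2_0,
 p4_3_0,
 p4_4_0,
 p4_5_0,
 p4_6_0,
 p4_7_0,
 p4_8_0,
 p4_9_0,
 p4_10_0,
 p4_11_0,
 p4_12_0,
 pR4_0]

theorem lev4 {V : Type*} [Fintype V] (T : Sys hS V) (hT : Hyp T cfg4) :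
    -(if 4 < 4 then (0 : ℝ) else 1411662460015646153020) * T.bad * T.D ^ (4 - 4) ≤ srcVal T 4 names4.flatten :=
  lev_of T cfg4_ok hT chs4.flatten (good4 T hT) 1 len4 mall4 names4 1411662460015646153020 (by decide +kernel) rfl

end MP433Sys.TFC
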