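import Pool.Agent.Work.MP_433a35_co.GB.TFC.KM5_0

set_option maxRecDepth 100000
set_option linter.unusedVariables false

namespace MP433Sys.TFC

theorem mall5 : ∀ i < 1, mergeOK cfg5 (col i chs5.flatten) = true :=
  kall_succ (kall_zero _) m5_0

def names5 : List (List Src) := [pT5,
 p5_0_0,
 p5_1_0,
 p5_2_0,
 p5_3_0,
 p5_4_0,
 p5_5_0,
 p5_6_0,
 p5_7_0,
 p5_8_0,
 p5_9_0,
 p5_10_0,
 p5_11_0,
 p5_12_0,
 pR5_0,
 pR5_1]

theorem lev5 {V : Type*} [Fintype V] (T : Sys hS V) (hT : Hyp T cfg5) :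
    -(if 5 < 4 then (0 : ℝ) else 6907981441382231902772) * T.bad * T.D ^ (5 - 4) ≤ srcVal T 5 names5.flatten :=
  lev_of T cfg5_ok hT chs5.flatten (good5 T hT) 1 len5 mall5 names5 6907981441382231902772 (by decide +kernel) rfl

end MP433Sys.TFC
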