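import Pool.Agent.Work.MP_433a35_co.GB.TFC.KM6_0

set_option maxRecDepth 100000
set_option linter.unusedVariables false

namespace MP433Sys.TFC

theorem mall6 : ∀ i < 2, mergeOK cfg6 (col i chs6.flatten) = true :=
  kall_succ (kall_succ (kall_zero _) m6_0) m6_1

def names6 : List (List Src) := [pT6,
 p6_0_0,
 p6_0_1,
 p6_0_2,
 p6_0_3,
 p6_0_4,
 p6_0_5,
 p6_0_6,
 p6_0_7,
 p6_0_8,
 p6_0_9,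
 p6_0_10,
 p6_0_11,
 p6_0_12,
 p6_0_13,
 p6_0_14,
 p6_0_15,
 p6_0_16,
 p6_0_17,
 p6_0_18,
 p6_0_19,
 p6_0_20,
 p6_0_21,
 p6_0_22,
 p6_0_23,
 p6_0_24,
 p6_0_25,
 p6_0_26,
 p6_0_27,
 p6_0_28,
 p6_0_29,
 p6_0_30,
 p6_0_31,
 p6_0_32,
 p6_1_0,
 p6_2_0,
 p6_2_1,
 p6_3_0,
 p6_3_1,
 p6_3_2,
 p6_3_3,
 p6_4_0,
 p6_5_0,
 p6_6_0,
 p6_6_1,
 p6_7_0,
 p6_8_0,
 p6_9_0,
 p6_10_0,
 p6_11_0,
 p6_11_1,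
 p6_11_2,
 p6_12_0,
 p6_12_1,
 pR6_0,
 pR6_1,
 pR6_2,
 pR6_3,
 pR6_4,
 pR6_5,
 pR6_6,
 pR6_7,
 pR6_8,
 pR6_9,
 pR6_10,
 pR6_11,
 pR6_12,
 pR6_13,
 pR6_14,
 pR6_15,
 pR6_16,
 pR6_17,
 pR6_18,
 pR6_19,
 pR6_20,
 pR6_21,
 pR6_22,
 pR6_23,
 pR6_24,
 pR6_25,
 pR6_26,
 pR6_27,
 pR6_28,
 pR6_29,
 pR6_30,
 pR6_31,
 pR6_32]

theorem lev6 {V : Type*} [Fintype V] (T : Sys hS V) (hT : Hyp T cfg6) :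
    -(if 6 < 4 then (0 : ℝ) else 422639432833273578533916) * T.bad * T.D ^ (6 - 4) ≤ srcVal T 6 names6.flatten :=
  lev_of T cfg6_ok hT chs6.flatten (good6 T hT) 2 len6 mall6 names6 422639432833273578533916 (by decide +kernel) rfl

end MP433Sys.TFC
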