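import Pool.Agent.Work.MP_433a35_co.GB.TFC.P
import Pool.Agent.Work.MP_433a35_co.GB.TFC.B0
import Pool.Agent.Work.MP_433a35_co.GB.TFC.B1
import Pool.Agent.Work.MP_433a35_co.GB.TFC.B2
import Pool.Agent.Work.MP_433a35_co.GB.TFC.B3
import Pool.Agent.Work.MP_433a35_co.GB.TFC.B4
import Pool.Agent.Work.MP_433a35_co.GB.TFC.B5
import Pool.Agent.Work.MP_433a35_co.GB.TFC.B6
import Pool.Agent.Work.MP_433a35_co.GB.TFC.B7
import Pool.Agent.Work.MP_433a35_co.GB.TFC.B8
import Pool.Agent.Work.MP_433a35_co.GB.TFC.B9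
import Pool.Agent.Work.MP_433a35_co.GB.TFC.B10
import Pool.Agent.Work.MP_433a35_co.GB.TFC.B11
import Pool.Agent.Work.MP_433a35_co.GB.TFC.B12
import Pool.Agent.Work.MP_433a35_co.GB.TFC.KL2
import Pool.Agent.Work.MP_433a35_co.GB.TFC.KL3
import Pool.Agent.Work.MP_433a35_co.GB.TFC.KL4
import Pool.Agent.Work.MP_433a35_co.GB.TFC.KL5
import Pool.Agent.Work.MP_433a35_co.GB.TFC.KL6
import Pool.Agent.Work.MP_433a35_co.GB.Sys.Hyp

/-!
# The strong chromatic index of triangle-free graphs: assembly of the certificate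

`main_tf`: the inequality for hybrid systems without triangles, `κ' = 1/2`, from the level
inequalities `lev2`, ..., `lev6`.  `strong_tf`: triangle-free graphs of large maximum degree have
strong edge colourings with fewer than `(5/4 + ε) D²` colours.
-/

namespace MP433Sys.TFC

open Finset

/-- the target, `κ' = 1/2` -/
def Tg : ℕ → List Src :=
  tgtG hS 3 4 (nat_lit 2305843009213693952) (nat_lit 4611686018427387904)

/-- the blocks with the lengths of their parts -/
def bsK : ℕ → List (BlkD × List ℕ)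
  | 2 => bs2
  | 3 => bs3
  | 4 => bs4
  | 5 => bs5
  | 6 => bs6
  | _ => blks.map fun b => (b, [])

/-- the rows, cut into lists -/
def rsK : ℕ → List (List RowD)
  | 2 => rs2
  | 3 => rs3
  | 4 => rs4
  | 5 => rs5
  | 6 => rs6
  | _ => [rows]

/-- the bounds for the bad terms -/
def cK : ℕ → ℝ
  | 4 => 1411662460015646153020
  | 5 => 6907981441382231902772
  | 6 => 422639432833273578533916
  | _ => 0

theorem blks_good : ∀ b ∈ blks, b.good hS 6 := by
  simp only [blks, List.forall_mem_cons]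
  exact ⟨b0_good, b1_good, b2_good, b3_good, b4_good, b5_good, b6_good, b7_good, b8_good, b9_good,
    b10_good, b11_good, b12_good, fun _ h => absurd h List.not_mem_nil⟩

theorem bsK_fst : ∀ k ≤ 6, (bsK k).map Prod.fst = blks := by
  intro k hk
  have h0 : (blks.map fun b => ((b, []) : BlkD × List ℕ)).map Prod.fst = blks := rfl
  match k, hk with
  | 0, _ => exact h0
  | 1, _ => exact h0
  | 2, _ => rfl
  | 3, _ => rfl
  | 4, _ => rfl
  | 5, _ => rfl
  | 6, _ => rfl

theorem rsK_flat : ∀ k ≤ 6, (rsK k).flatten = rows := by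
  intro k hk
  have h0 : [rows].flatten = rows := by
    rw [List.flatten_cons, List.flatten_nil, List.append_nil]
  match k, hk with
  | 0, _ => exact h0
  | 1, _ => exact h0
  | 2, _ => exact rs2_eq
  | 3, _ => exact rs3_eq
  | 4, _ => exact rs4_eq
  | 5, _ => exact rs5_eq
  | 6, _ => exact rs6_eq

theorem empty0 : (parts hS Tg 0 (bsK 0) (rsK 0)).flatten.isEmpty = true := by
  decide +kernel

theorem empty1 : (parts hS Tg 1 (bsK 1) (rsK 1)).flatten.isEmpty = true := by
  decide +kernel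

section

variable {V : Type*} [Fintype V] (T : Sys hS V)

theorem hc0 (k : ℕ) (hk : k < 4) : cK k = 0 := by
  match k, hk with
  | 0, _ => rfl
  | 1, _ => rfl
  | 2, _ => rfl
  | 3, _ => rfl

theorem lv0 (k : ℕ) (h : (parts hS Tg k (bsK k) (rsK k)).flatten.isEmpty = true)
    (hk : cK k = 0) : -(cK k) * T.bad * T.D ^ (k - 4) ≤
      srcVal T k (parts hS Tg k (bsK k) (rsK k)).flatten := by
  rw [List.isEmpty_iff.1 h, hk, srcVal_nil]
  simp

theorem lv_all (h2 : Hyp T cfg2) (h3 : Hyp T cfg3) (h4 : Hyp T cfg4) (h5 : Hyp T cfg5)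
    (h6 : Hyp T cfg6) : ∀ k ≤ 6, -(cK k) * T.bad * T.D ^ (k - 4) ≤
      srcVal T k (parts hS Tg k (bsK k) (rsK k)).flatten := by
  intro k hk
  match k, hk with
  | 0, _ => exact lv0 T 0 empty0 rfl
  | 1, _ => exact lv0 T 1 empty1 rfl
  | 2, _ =>
    have h := lev2 T h2
    rw [if_pos (by norm_num)] at h
    have e : parts hS Tg 2 (bsK 2) (rsK 2) = names2 := parts2
    rw [e]
    exact h
  | 3, _ =>
    have h := lev3 T h3
    rw [if_pos (by norm_num)] at h
    have e : parts hS Tg 3 (bsK 3) (rsK 3) = names3 := parts3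
    rw [e]
    exact h
  | 4, _ =>
    have h := lev4 T h4
    rw [if_neg (by norm_num)] at h
    have e : parts hS Tg 4 (bsK 4) (rsK 4) = names4 := parts4
    rw [e]
    exact h
  | 5, _ =>
    have h := lev5 T h5
    rw [if_neg (by norm_num)] at h
    have e : parts hS Tg 5 (bsK 5) (rsK 5) = names5 := parts5
    rw [e]
    exact h
  | 6, _ =>
    have h := lev6 T h6
    rw [if_neg (by norm_num)] at h
    have e : parts hS Tg 6 (bsK 6) (rsK 6) = names6 := parts6
    rw [e]
    exact h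

/-- **The inequality for hybrid systems without triangles**, `κ' = 1/2`. -/
theorem main_tf (hD : 0 ≤ T.D) (hN : NoTri T) :
    -(∑ k ∈ range 7, cK k) * T.bad * T.D ^ (6 - 4) ≤ lvl T 6 Tg := by
  refine main_parts T false (fun h => absurd h Bool.false_ne_true) 6 (by norm_num) hD
    (by decide) Tg blks rows blks_good rows_ok bsK bsK_fst rsK rsK_flat cK hc0 ?_
  exact lv_all T (hyp_full T cfg2 hD rfl rfl) (hyp_tf T cfg3 hD rfl hN (by decide))
    (hyp_tf T cfg4 hD rfl hN (by decide)) (hyp_tf T cfg5 hD rfl hN (by decide))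
    (hyp_tf T cfg6 hD rfl hN (by decide))

end

theorem two_half : (((nat_lit 2305843009213693952 : ℕ) : ℝ)) /
    (((nat_lit 4611686018427387904 : ℕ) : ℝ)) = 1 / 2 := by
  have e : (nat_lit 4611686018427387904 : ℕ) = 2 * 2305843009213693952 := by decide +kernel
  have e' : (nat_lit 2305843009213693952 : ℕ) = 2305843009213693952 := by decide +kernel
  rw [e, e']
  push_cast
  norm_num

theorem strong_tf (ε : ℝ) (hε : 0 < ε) :
    ∃ K : ℕ, ∀ (V : Type) [Fintype V] (G : SimpleGraph V) (D : ℕ), K ≤ D → G.CliqueFree 3 →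
      (∀ v, (G.neighborSet v).ncard ≤ D) →
      ∃ col : Sym2 V → ℕ,
        (∀ x y, G.Adj x y → (col s(x, y) : ℝ) < (5 / 4 + ε) * (D : ℝ) ^ 2) ∧
        ∀ x y c e, G.Adj x y → G.Adj c e → s(x, y) ≠ s(c, e) → (y = c ∨ G.Adj y c) →
          col s(x, y) ≠ col s(c, e) := by
  have h := strongTF_of_hyb (nat_lit 2305843009213693952) (nat_lit 4611686018427387904)
    (by decide +kernel) (by decide +kernel) 6 (by norm_num) (∑ k ∈ range 7, cK k)
    (fun V _ T hD hN _ => main_tf T hD hN) ε hε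
  rw [two_half, show ((2 : ℝ) + 1 / 2) / 2 = 5 / 4 by norm_num] at h
  exact h

end MP433Sys.TFC
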