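import Pool.Agent.Work.MP_433a35_co.GB.TFC.KCfg2

set_option maxRecDepth 100000
set_option linter.unusedVariables false

namespace MP433Sys.TFC

def cs2_0 : List (ℕ × ℕ) := [(nat_lit 0, nat_lit 0)]

def R2_0 : List (List ℕ × List ℕ) := [([nat_lit 0x400000000000000000000], [])]

theorem c2_0 : chunkOK hS cfg2 pT2 cs2_0 R2_0 4611686018427387904 = true := by decide +kernel

def cs2_1 : List (ℕ × ℕ) := [(nat_lit 0, nat_lit 0)]

def R2_1 : List (List ℕ × List ℕ) := [([], [nat_lit 0x3fffece41628cabc00000])]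

theorem c2_1 : chunkOK hS cfg2 p2_0_0 cs2_1 R2_1 4611665007819147964 = true := by decide +kernel

def cs2_2 : List (ℕ × ℕ) := [(nat_lit 0, nat_lit 0)]

def R2_2 : List (List ℕ × List ℕ) := [([], [nat_lit 0x131be9d7354400000])]

theorem c2_2 : chunkOK hS cfg2 pR2_0 cs2_2 R2_2 21010608239940 = true := by decide +kernel

def ch2_0 : List Chunk := [⟨pT2, R2_0, 4611686018427387904⟩,
 ⟨p2_0_0, R2_1, 4611665007819147964⟩,
 ⟨pR2_0, R2_2, 21010608239940⟩]

theorem good2_0 {V : Type*} [Fintype V] (T : Sys hS V) (hT : Hyp T cfg2) :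
    ∀ x ∈ ch2_0, x.good T cfg2 :=
  kall_cons (chunk_good T cfg2_ok hT c2_0) (kall_cons (chunk_good T cfg2_ok hT c2_1) (kall_cons (chunk_good T cfg2_ok hT c2_2) (kall_nil _)))

theorem len2_0 : (ch2_0.all fun x => decide (x.R.length ≤ 1)) = true := by decide +kernel

end MP433Sys.TFC
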