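import Pool.Agent.Work.MP_433a35_co.GB.TFC.KCfg3

set_option maxRecDepth 100000
set_option linter.unusedVariables false

namespace MP433Sys.TFC

def cs3_0 : List (ℕ × ℕ) := [(nat_lit 0, nat_lit 0x3ffe000),
 (nat_lit 0, nat_lit 0x3ffe000),
 (nat_lit 0, nat_lit 0x3ffe000),
 (nat_lit 0, nat_lit 0x3ffe000)]

def R3_0 : List (List ℕ × List ℕ) := [([], [])]

theorem c3_0 : chunkOK hS cfg3 pT3 cs3_0 R3_0 36893488147419103232 = true := by decide +kernel

def cs3_1 : List (ℕ × ℕ) := [(nat_lit 0, nat_lit 0x8000002),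
 (nat_lit 0, nat_lit 0x4000001),
 (nat_lit 0, nat_lit 0),
 (nat_lit 0, nat_lit 0x8000000),
 (nat_lit 0, nat_lit 0x4000003),
 (nat_lit 0, nat_lit 0x2)]

def R3_1 : List (List ℕ × List ℕ) := [([nat_lit 0x10ba6be882fc800000000000000000000000013c2bbe72f1900400000000000000000000001ae0dcd8dcfd808000], [])]

theorem c3_1 : chunkOK hS cfg3 p3_0_0 cs3_1 R3_1 1114768602100016 = true := by decide +kernel

def cs3_2 : List (ℕ × ℕ) := [(nat_lit 0, nat_lit 0x3ffe00003ffe00008000002),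
 (nat_lit 0, nat_lit 0x3ffe00003ffe00004000001),
 (nat_lit 0, nat_lit 0x8000002),
 (nat_lit 0, nat_lit 0x8000002),
 (nat_lit 0, nat_lit 0x8000002),
 (nat_lit 0, nat_lit 0x4000001),
 (nat_lit 0, nat_lit 0x4000001),
 (nat_lit 0, nat_lit 0x4000001),
 (nat_lit 0, nat_lit 0),
 (nat_lit 0, nat_lit 0)]

def R3_2 : List (List ℕ × List ℕ) := [([], [nat_lit 0x10ba6be882fc800000000000000000000000013c2bbe72f1900400000000000000000000001a4226b05944c08000])]

theorem c3_2 : chunkOK hS cfg3 pR3_0 cs3_2 R3_2 1271946892959684 = true := by decide +kernel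

def ch3_0 : List Chunk := [⟨pT3, R3_0, 36893488147419103232⟩,
 ⟨p3_0_0, R3_1, 1114768602100016⟩,
 ⟨pR3_0, R3_2, 1271946892959684⟩]

theorem good3_0 {V : Type*} [Fintype V] (T : Sys hS V) (hT : Hyp T cfg3) :
    ∀ x ∈ ch3_0, x.good T cfg3 :=
  kall_cons (chunk_good T cfg3_ok hT c3_0) (kall_cons (chunk_good T cfg3_ok hT c3_1) (kall_cons (chunk_good T cfg3_ok hT c3_2) (kall_nil _)))

theorem len3_0 : (ch3_0.all fun x => decide (x.R.length ≤ 1)) = true := by decide +kernel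

end MP433Sys.TFC
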