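import Pool.Agent.Work.MP_433a35_co.GB.Sys.Asm
import Pool.Agent.Work.MP_433a35_co.GB.Sys.Hyb

/-! generated data: degree rows -/

set_option linter.style.longLine false

namespace MP433Sys.TFC

def r0 : List RowD := [⟨nat_lit 2, Int.ofNat (nat_lit 21010608239940), nat_lit 4, nat_lit 0⟩]

def r1 : List RowD := [⟨nat_lit 3, Int.ofNat (nat_lit 66520388688172), nat_lit 12, nat_lit 0⟩,
  ⟨nat_lit 3, Int.ofNat (nat_lit 374921299385048), nat_lit 12, nat_lit 1⟩,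
  ⟨nat_lit 3, Int.ofNat (nat_lit 41511628248460), nat_lit 12, nat_lit 2⟩,
  ⟨nat_lit 3, Int.ofNat (nat_lit 314824453433904), nat_lit 20, nat_lit 0⟩,
  ⟨nat_lit 3, Int.ofNat (nat_lit 21830959782932), nat_lit 20, nat_lit 1⟩,
  ⟨nat_lit 3, Int.ofNat (nat_lit 31988748198032), nat_lit 20, nat_lit 2⟩,
  ⟨nat_lit 3, Int.ofNat (nat_lit 268235127920756), nat_lit 27, nat_lit 0⟩,
  ⟨nat_lit 3, Int.ofNat (nat_lit 26050637862740), nat_lit 27, nat_lit 1⟩]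

def r2 : List RowD := [⟨nat_lit 4, Int.ofNat (nat_lit 129591748569084), nat_lit 524, nat_lit 0⟩,
  ⟨nat_lit 4, Int.ofNat (nat_lit 376708653859696), nat_lit 524, nat_lit 1⟩,
  ⟨nat_lit 4, Int.ofNat (nat_lit 68645580099544), nat_lit 524, nat_lit 2⟩,
  ⟨nat_lit 4, Int.ofNat (nat_lit 4461133595243488), nat_lit 532, nat_lit 0⟩,
  ⟨nat_lit 4, Int.ofNat (nat_lit 771859601555020), nat_lit 532, nat_lit 1⟩,
  ⟨nat_lit 4, Int.ofNat (nat_lit 900978800722200), nat_lit 532, nat_lit 2⟩,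
  ⟨nat_lit 4, Int.ofNat (nat_lit 1073888979507428), nat_lit 532, nat_lit 3⟩,
  ⟨nat_lit 4, Int.ofNat (nat_lit 4937323989079152), nat_lit 580, nat_lit 0⟩,
  ⟨nat_lit 4, Int.ofNat (nat_lit 1881955057842136), nat_lit 580, nat_lit 2⟩,
  ⟨nat_lit 4, Int.ofNat (nat_lit 74854312935876), nat_lit 644, nat_lit 0⟩,
  ⟨nat_lit 4, Int.ofNat (nat_lit 828474009627576), nat_lit 644, nat_lit 1⟩,
  ⟨nat_lit 4, Int.ofNat (nat_lit 433495160132100), nat_lit 644, nat_lit 2⟩,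
  ⟨nat_lit 4, Int.ofNat (nat_lit 46948949202116), nat_lit 644, nat_lit 3⟩,
  ⟨nat_lit 4, Int.ofNat (nat_lit 451191716098552), nat_lit 1044, nat_lit 0⟩,
  ⟨nat_lit 4, Int.ofNat (nat_lit 21524161845024), nat_lit 1044, nat_lit 1⟩,
  ⟨nat_lit 4, Int.ofNat (nat_lit 31340429889120), nat_lit 1044, nat_lit 2⟩,
  ⟨nat_lit 4, Int.ofNat (nat_lit 791569342651608), nat_lit 1156, nat_lit 0⟩,
  ⟨nat_lit 4, Int.ofNat (nat_lit 64810817150996), nat_lit 1156, nat_lit 2⟩,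
  ⟨nat_lit 4, Int.ofNat (nat_lit 413334977604536), nat_lit 32780, nat_lit 0⟩,
  ⟨nat_lit 4, Int.ofNat (nat_lit 1149681449445300), nat_lit 32780, nat_lit 1⟩,
  ⟨nat_lit 4, Int.ofNat (nat_lit 454433497950636), nat_lit 32780, nat_lit 2⟩,
  ⟨nat_lit 4, Int.ofNat (nat_lit 94706776271064), nat_lit 32780, nat_lit 3⟩,
  ⟨nat_lit 4, Int.ofNat (nat_lit 1369803775624408), nat_lit 32788, nat_lit 0⟩,
  ⟨nat_lit 4, Int.ofNat (nat_lit 444807399262392), nat_lit 32788, nat_lit 1⟩,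
  ⟨nat_lit 4, Int.ofNat (nat_lit 159368013600228), nat_lit 32788, nat_lit 2⟩,
  ⟨nat_lit 4, Int.ofNat (nat_lit 73429828089184), nat_lit 32788, nat_lit 3⟩,
  ⟨nat_lit 4, Int.ofNat (nat_lit 3628581147657604096), nat_lit 33348, nat_lit 0⟩,
  ⟨nat_lit 4, Int.ofNat (nat_lit 1335803765125035264), nat_lit 33348, nat_lit 2⟩,
  ⟨nat_lit 4, Int.ofNat (nat_lit 407726716446400), nat_lit 33412, nat_lit 0⟩,
  ⟨nat_lit 4, Int.ofNat (nat_lit 21031585991792376), nat_lit 33412, nat_lit 1⟩]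

def r3 : List RowD := [⟨nat_lit 4, Int.ofNat (nat_lit 429139294392032), nat_lit 33412, nat_lit 2⟩,
  ⟨nat_lit 4, Int.ofNat (nat_lit 1094378609711764), nat_lit 33412, nat_lit 3⟩,
  ⟨nat_lit 4, Int.ofNat (nat_lit 9009241290132704), nat_lit 33924, nat_lit 0⟩,
  ⟨nat_lit 4, Int.ofNat (nat_lit 4708608876521816), nat_lit 33924, nat_lit 2⟩,
  ⟨nat_lit 4, Int.ofNat (nat_lit 788208655110144), nat_lit 65548, nat_lit 0⟩,
  ⟨nat_lit 4, Int.ofNat (nat_lit 1795340391229916), nat_lit 65548, nat_lit 1⟩,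
  ⟨nat_lit 4, Int.ofNat (nat_lit 3195814122761743872), nat_lit 65548, nat_lit 2⟩,
  ⟨nat_lit 4, Int.ofNat (nat_lit 600414610629145344), nat_lit 65548, nat_lit 3⟩,
  ⟨nat_lit 4, Int.ofNat (nat_lit 646055968413912), nat_lit 65556, nat_lit 0⟩,
  ⟨nat_lit 4, Int.ofNat (nat_lit 33936995900116), nat_lit 65556, nat_lit 1⟩,
  ⟨nat_lit 4, Int.ofNat (nat_lit 643095997952428), nat_lit 65556, nat_lit 2⟩,
  ⟨nat_lit 4, Int.ofNat (nat_lit 54096575356216), nat_lit 65556, nat_lit 3⟩,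
  ⟨nat_lit 4, Int.ofNat (nat_lit 1170682024608515840), nat_lit 66116, nat_lit 0⟩,
  ⟨nat_lit 4, Int.ofNat (nat_lit 2790478126343306752), nat_lit 66116, nat_lit 2⟩,
  ⟨nat_lit 4, Int.ofNat (nat_lit 3329706921040352), nat_lit 66180, nat_lit 0⟩,
  ⟨nat_lit 4, Int.ofNat (nat_lit 9388258886085304), nat_lit 66180, nat_lit 1⟩,
  ⟨nat_lit 4, Int.ofNat (nat_lit 7685383214263268), nat_lit 66180, nat_lit 2⟩,
  ⟨nat_lit 4, Int.ofNat (nat_lit 3869293916898448), nat_lit 66180, nat_lit 3⟩,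
  ⟨nat_lit 4, Int.ofNat (nat_lit 418416386014472), nat_lit 66692, nat_lit 0⟩,
  ⟨nat_lit 4, Int.ofNat (nat_lit 496645823729968), nat_lit 66692, nat_lit 2⟩,
  ⟨nat_lit 4, Int.ofNat (nat_lit 3238643051405724), nat_lit 539, nat_lit 0⟩,
  ⟨nat_lit 4, Int.ofNat (nat_lit 825244088403672), nat_lit 539, nat_lit 1⟩,
  ⟨nat_lit 4, Int.ofNat (nat_lit 1072106924538128), nat_lit 539, nat_lit 3⟩,
  ⟨nat_lit 4, Int.ofNat (nat_lit 353795704405108), nat_lit 1051, nat_lit 0⟩,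
  ⟨nat_lit 4, Int.ofNat (nat_lit 25977911486292), nat_lit 1051, nat_lit 1⟩,
  ⟨nat_lit 4, Int.ofNat (nat_lit 31367927023756), nat_lit 1051, nat_lit 3⟩,
  ⟨nat_lit 4, Int.ofNat (nat_lit 1164644288759476), nat_lit 4123, nat_lit 0⟩,
  ⟨nat_lit 4, Int.ofNat (nat_lit 98237050981160), nat_lit 4123, nat_lit 1⟩,
  ⟨nat_lit 4, Int.ofNat (nat_lit 426402809838456), nat_lit 4123, nat_lit 2⟩,
  ⟨nat_lit 4, Int.ofNat (nat_lit 58628797491968), nat_lit 4123, nat_lit 3⟩]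

def r4 : List RowD := [⟨nat_lit 4, Int.ofNat (nat_lit 695969685146936), nat_lit 8219, nat_lit 0⟩,
  ⟨nat_lit 4, Int.ofNat (nat_lit 580927253879560), nat_lit 8219, nat_lit 1⟩,
  ⟨nat_lit 4, Int.ofNat (nat_lit 46392362683448), nat_lit 8219, nat_lit 2⟩,
  ⟨nat_lit 4, Int.ofNat (nat_lit 56338516321564), nat_lit 8219, nat_lit 3⟩,
  ⟨nat_lit 4, Int.ofNat (nat_lit 20733415679487196), nat_lit 36891, nat_lit 0⟩,
  ⟨nat_lit 4, Int.ofNat (nat_lit 411096112355584), nat_lit 36891, nat_lit 1⟩,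
  ⟨nat_lit 4, Int.ofNat (nat_lit 1070816715751664), nat_lit 36891, nat_lit 3⟩,
  ⟨nat_lit 4, Int.ofNat (nat_lit 8538448454477180), nat_lit 40987, nat_lit 0⟩,
  ⟨nat_lit 4, Int.ofNat (nat_lit 7804693165337460), nat_lit 40987, nat_lit 1⟩,
  ⟨nat_lit 4, Int.ofNat (nat_lit 3706767753916864), nat_lit 40987, nat_lit 2⟩,
  ⟨nat_lit 4, Int.ofNat (nat_lit 4023666839213624), nat_lit 40987, nat_lit 3⟩,
  ⟨nat_lit 4, Int.ofNat (nat_lit 404818320706440), nat_lit 73755, nat_lit 0⟩,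
  ⟨nat_lit 4, Int.ofNat (nat_lit 412534938778472), nat_lit 73755, nat_lit 1⟩,
  ⟨nat_lit 4, Int.ofNat (nat_lit 477119079071508), nat_lit 73755, nat_lit 3⟩,
  ⟨nat_lit 4, Int.ofNat (nat_lit 209208550186768), nat_lit 98315, nat_lit 0⟩,
  ⟨nat_lit 4, Int.ofNat (nat_lit 627185590717696), nat_lit 98315, nat_lit 1⟩,
  ⟨nat_lit 4, Int.ofNat (nat_lit 505220933133428), nat_lit 98323, nat_lit 0⟩,
  ⟨nat_lit 4, Int.ofNat (nat_lit 41355624841356), nat_lit 98323, nat_lit 1⟩,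
  ⟨nat_lit 4, Int.ofNat (nat_lit 30113350302720744), nat_lit 98883, nat_lit 0⟩,
  ⟨nat_lit 4, Int.ofNat (nat_lit 3336099463576228), nat_lit 98947, nat_lit 0⟩,
  ⟨nat_lit 4, Int.ofNat (nat_lit 7648778778267496), nat_lit 98947, nat_lit 1⟩,
  ⟨nat_lit 4, Int.ofNat (nat_lit 402745735306780), nat_lit 99459, nat_lit 0⟩]

def r5 : List RowD := [⟨nat_lit 5, Int.ofNat (nat_lit 273763947709501728), nat_lit 262668, nat_lit 0⟩,
  ⟨nat_lit 5, Int.ofNat (nat_lit 12505239731280568), nat_lit 262668, nat_lit 1⟩,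
  ⟨nat_lit 5, Int.ofNat (nat_lit 111664011050028), nat_lit 262668, nat_lit 2⟩,
  ⟨nat_lit 5, Int.ofNat (nat_lit 4063619492677961216), nat_lit 262676, nat_lit 0⟩,
  ⟨nat_lit 5, Int.ofNat (nat_lit 1777009051136900), nat_lit 262676, nat_lit 1⟩,
  ⟨nat_lit 5, Int.ofNat (nat_lit 2159698655931820), nat_lit 262676, nat_lit 2⟩,
  ⟨nat_lit 5, Int.ofNat (nat_lit 4817217688808840), nat_lit 262676, nat_lit 3⟩,
  ⟨nat_lit 5, Int.ofNat (nat_lit 1416108591807972352), nat_lit 262724, nat_lit 0⟩,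
  ⟨nat_lit 5, Int.ofNat (nat_lit 242883447554602464), nat_lit 262724, nat_lit 1⟩,
  ⟨nat_lit 5, Int.ofNat (nat_lit 4289913538222428), nat_lit 262724, nat_lit 2⟩,
  ⟨nat_lit 5, Int.ofNat (nat_lit 2824000127110224), nat_lit 262724, nat_lit 3⟩,
  ⟨nat_lit 5, Int.ofNat (nat_lit 191692088045052), nat_lit 262788, nat_lit 0⟩,
  ⟨nat_lit 5, Int.ofNat (nat_lit 1052721603271518720), nat_lit 262788, nat_lit 1⟩,
  ⟨nat_lit 5, Int.ofNat (nat_lit 1679184448330080), nat_lit 262788, nat_lit 2⟩,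
  ⟨nat_lit 5, Int.ofNat (nat_lit 79269506226076), nat_lit 262788, nat_lit 3⟩,
  ⟨nat_lit 5, Int.ofNat (nat_lit 6917697445960397824), nat_lit 263188, nat_lit 0⟩,
  ⟨nat_lit 5, Int.ofNat (nat_lit 1424353719769608), nat_lit 263188, nat_lit 1⟩,
  ⟨nat_lit 5, Int.ofNat (nat_lit 1609462559660372), nat_lit 263188, nat_lit 2⟩,
  ⟨nat_lit 5, Int.ofNat (nat_lit 1640644272500040), nat_lit 263188, nat_lit 4⟩,
  ⟨nat_lit 5, Int.ofNat (nat_lit 2282343471778944256), nat_lit 263236, nat_lit 0⟩,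
  ⟨nat_lit 5, Int.ofNat (nat_lit 10645466400261320), nat_lit 263236, nat_lit 1⟩,
  ⟨nat_lit 5, Int.ofNat (nat_lit 4390899133908476), nat_lit 263236, nat_lit 2⟩,
  ⟨nat_lit 5, Int.ofNat (nat_lit 32952065794628600), nat_lit 263236, nat_lit 3⟩,
  ⟨nat_lit 5, Int.ofNat (nat_lit 14746624157891176), nat_lit 263236, nat_lit 4⟩,
  ⟨nat_lit 5, Int.ofNat (nat_lit 86715613073354288), nat_lit 263300, nat_lit 0⟩,
  ⟨nat_lit 5, Int.ofNat (nat_lit 48368668138375608), nat_lit 263300, nat_lit 1⟩,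
  ⟨nat_lit 5, Int.ofNat (nat_lit 5280975653775676), nat_lit 263300, nat_lit 2⟩,
  ⟨nat_lit 5, Int.ofNat (nat_lit 370994662267907072), nat_lit 263300, nat_lit 3⟩,
  ⟨nat_lit 5, Int.ofNat (nat_lit 3044240391794296), nat_lit 263300, nat_lit 4⟩,
  ⟨nat_lit 5, Int.ofNat (nat_lit 96121563677464), nat_lit 270468, nat_lit 0⟩]

def r6 : List RowD := [⟨nat_lit 5, Int.ofNat (nat_lit 1074957790958045440), nat_lit 270468, nat_lit 1⟩,
  ⟨nat_lit 5, Int.ofNat (nat_lit 427428239370276), nat_lit 270468, nat_lit 2⟩,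
  ⟨nat_lit 5, Int.ofNat (nat_lit 50197459482948), nat_lit 270468, nat_lit 4⟩,
  ⟨nat_lit 5, Int.ofNat (nat_lit 50742639633824536), nat_lit 294924, nat_lit 0⟩,
  ⟨nat_lit 5, Int.ofNat (nat_lit 48914765066720032), nat_lit 294924, nat_lit 1⟩,
  ⟨nat_lit 5, Int.ofNat (nat_lit 1556318919312200), nat_lit 294924, nat_lit 2⟩,
  ⟨nat_lit 5, Int.ofNat (nat_lit 187742119478192), nat_lit 294924, nat_lit 3⟩,
  ⟨nat_lit 5, Int.ofNat (nat_lit 435356036942384), nat_lit 294924, nat_lit 4⟩,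
  ⟨nat_lit 5, Int.ofNat (nat_lit 1446343206966125824), nat_lit 294932, nat_lit 0⟩,
  ⟨nat_lit 5, Int.ofNat (nat_lit 60228005980718936), nat_lit 294932, nat_lit 1⟩,
  ⟨nat_lit 5, Int.ofNat (nat_lit 2042776934356764928), nat_lit 294932, nat_lit 2⟩,
  ⟨nat_lit 5, Int.ofNat (nat_lit 28303380605014548), nat_lit 294932, nat_lit 3⟩,
  ⟨nat_lit 5, Int.ofNat (nat_lit 164624343239688160), nat_lit 294932, nat_lit 4⟩,
  ⟨nat_lit 5, Int.ofNat (nat_lit 376366896666701440), nat_lit 294980, nat_lit 0⟩,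
  ⟨nat_lit 5, Int.ofNat (nat_lit 909787390165551104), nat_lit 294980, nat_lit 1⟩,
  ⟨nat_lit 5, Int.ofNat (nat_lit 489769723954368192), nat_lit 294980, nat_lit 2⟩,
  ⟨nat_lit 5, Int.ofNat (nat_lit 16276754883546104), nat_lit 294980, nat_lit 3⟩,
  ⟨nat_lit 5, Int.ofNat (nat_lit 6733525156406976), nat_lit 294980, nat_lit 4⟩,
  ⟨nat_lit 5, Int.ofNat (nat_lit 1079885121667444), nat_lit 295044, nat_lit 0⟩,
  ⟨nat_lit 5, Int.ofNat (nat_lit 3474313484538434560), nat_lit 295044, nat_lit 1⟩,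
  ⟨nat_lit 5, Int.ofNat (nat_lit 1372250870690124), nat_lit 295044, nat_lit 2⟩,
  ⟨nat_lit 5, Int.ofNat (nat_lit 371853412129608), nat_lit 295044, nat_lit 3⟩,
  ⟨nat_lit 5, Int.ofNat (nat_lit 260382255934900), nat_lit 295044, nat_lit 4⟩,
  ⟨nat_lit 5, Int.ofNat (nat_lit 3372164202528246272), nat_lit 295492, nat_lit 0⟩,
  ⟨nat_lit 5, Int.ofNat (nat_lit 159842414954622720), nat_lit 295492, nat_lit 1⟩,
  ⟨nat_lit 5, Int.ofNat (nat_lit 2186031630716547584), nat_lit 295492, nat_lit 2⟩,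
  ⟨nat_lit 5, Int.ofNat (nat_lit 385191623743924096), nat_lit 295492, nat_lit 3⟩,
  ⟨nat_lit 5, Int.ofNat (nat_lit 89773884816111520), nat_lit 295492, nat_lit 4⟩,
  ⟨nat_lit 5, Int.ofNat (nat_lit 7782193710221784), nat_lit 295556, nat_lit 0⟩,
  ⟨nat_lit 5, Int.ofNat (nat_lit 2579519679482569728), nat_lit 295556, nat_lit 1⟩]

def r7 : List RowD := [⟨nat_lit 5, Int.ofNat (nat_lit 20467170797798824), nat_lit 295556, nat_lit 2⟩,
  ⟨nat_lit 5, Int.ofNat (nat_lit 14080784897167000), nat_lit 295556, nat_lit 3⟩,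
  ⟨nat_lit 5, Int.ofNat (nat_lit 14470402589101656), nat_lit 295556, nat_lit 4⟩,
  ⟨nat_lit 5, Int.ofNat (nat_lit 7070000416899894272), nat_lit 296004, nat_lit 0⟩,
  ⟨nat_lit 5, Int.ofNat (nat_lit 11818188361169976), nat_lit 296004, nat_lit 1⟩,
  ⟨nat_lit 5, Int.ofNat (nat_lit 10182138012853800), nat_lit 296004, nat_lit 2⟩,
  ⟨nat_lit 5, Int.ofNat (nat_lit 14339870162350764), nat_lit 296004, nat_lit 3⟩,
  ⟨nat_lit 5, Int.ofNat (nat_lit 286324430964117728), nat_lit 296004, nat_lit 4⟩,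
  ⟨nat_lit 5, Int.ofNat (nat_lit 4593029929099273728), nat_lit 296068, nat_lit 0⟩,
  ⟨nat_lit 5, Int.ofNat (nat_lit 441817581271906816), nat_lit 296068, nat_lit 1⟩,
  ⟨nat_lit 5, Int.ofNat (nat_lit 591240313666688896), nat_lit 296068, nat_lit 2⟩,
  ⟨nat_lit 5, Int.ofNat (nat_lit 3461724041188875776), nat_lit 296068, nat_lit 3⟩,
  ⟨nat_lit 5, Int.ofNat (nat_lit 83889642488408656), nat_lit 296068, nat_lit 4⟩,
  ⟨nat_lit 5, Int.ofNat (nat_lit 983094641807360), nat_lit 327692, nat_lit 0⟩,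
  ⟨nat_lit 5, Int.ofNat (nat_lit 1027534563668928), nat_lit 327692, nat_lit 1⟩,
  ⟨nat_lit 5, Int.ofNat (nat_lit 749893161819857152), nat_lit 327692, nat_lit 2⟩,
  ⟨nat_lit 5, Int.ofNat (nat_lit 637859497038482432), nat_lit 327692, nat_lit 3⟩,
  ⟨nat_lit 5, Int.ofNat (nat_lit 4148042075599356), nat_lit 327692, nat_lit 4⟩,
  ⟨nat_lit 5, Int.ofNat (nat_lit 836646377994831104), nat_lit 327700, nat_lit 0⟩,
  ⟨nat_lit 5, Int.ofNat (nat_lit 2135519868715090176), nat_lit 327700, nat_lit 1⟩,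
  ⟨nat_lit 5, Int.ofNat (nat_lit 3562734429133199872), nat_lit 327700, nat_lit 2⟩,
  ⟨nat_lit 5, Int.ofNat (nat_lit 2205273460164051712), nat_lit 327700, nat_lit 3⟩,
  ⟨nat_lit 5, Int.ofNat (nat_lit 2249682321174680), nat_lit 327700, nat_lit 4⟩,
  ⟨nat_lit 5, Int.ofNat (nat_lit 4976578275133104), nat_lit 327748, nat_lit 0⟩,
  ⟨nat_lit 5, Int.ofNat (nat_lit 1179820768840894464), nat_lit 327748, nat_lit 1⟩,
  ⟨nat_lit 5, Int.ofNat (nat_lit 2843299869986495488), nat_lit 327748, nat_lit 2⟩,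
  ⟨nat_lit 5, Int.ofNat (nat_lit 7499584254953020), nat_lit 327748, nat_lit 3⟩,
  ⟨nat_lit 5, Int.ofNat (nat_lit 2254299571945336), nat_lit 327748, nat_lit 4⟩,
  ⟨nat_lit 5, Int.ofNat (nat_lit 109053733567324), nat_lit 327812, nat_lit 0⟩,
  ⟨nat_lit 5, Int.ofNat (nat_lit 2169820336244428), nat_lit 327812, nat_lit 1⟩]

def r8 : List RowD := [⟨nat_lit 5, Int.ofNat (nat_lit 15239170655832160), nat_lit 327812, nat_lit 2⟩,
  ⟨nat_lit 5, Int.ofNat (nat_lit 229797751959756), nat_lit 327812, nat_lit 3⟩,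
  ⟨nat_lit 5, Int.ofNat (nat_lit 66200264717684), nat_lit 327812, nat_lit 4⟩,
  ⟨nat_lit 5, Int.ofNat (nat_lit 1176988348185559040), nat_lit 328260, nat_lit 0⟩,
  ⟨nat_lit 5, Int.ofNat (nat_lit 1769906782045744896), nat_lit 328260, nat_lit 1⟩,
  ⟨nat_lit 5, Int.ofNat (nat_lit 2704349424392675840), nat_lit 328260, nat_lit 2⟩,
  ⟨nat_lit 5, Int.ofNat (nat_lit 1005746250235171584), nat_lit 328260, nat_lit 3⟩,
  ⟨nat_lit 5, Int.ofNat (nat_lit 1252546691746489344), nat_lit 328260, nat_lit 4⟩,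
  ⟨nat_lit 5, Int.ofNat (nat_lit 29213992100494172), nat_lit 328324, nat_lit 0⟩,
  ⟨nat_lit 5, Int.ofNat (nat_lit 4935555728643057664), nat_lit 328324, nat_lit 1⟩,
  ⟨nat_lit 5, Int.ofNat (nat_lit 63528296450273024), nat_lit 328324, nat_lit 2⟩,
  ⟨nat_lit 5, Int.ofNat (nat_lit 43780597789843424), nat_lit 328324, nat_lit 3⟩,
  ⟨nat_lit 5, Int.ofNat (nat_lit 39673528940306760), nat_lit 328324, nat_lit 4⟩,
  ⟨nat_lit 5, Int.ofNat (nat_lit 633385732138843648), nat_lit 328772, nat_lit 0⟩,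
  ⟨nat_lit 5, Int.ofNat (nat_lit 152642357616646944), nat_lit 328772, nat_lit 1⟩,
  ⟨nat_lit 5, Int.ofNat (nat_lit 2542872959842915328), nat_lit 328772, nat_lit 2⟩,
  ⟨nat_lit 5, Int.ofNat (nat_lit 94900635861067232), nat_lit 328772, nat_lit 3⟩,
  ⟨nat_lit 5, Int.ofNat (nat_lit 60973963226564728), nat_lit 328772, nat_lit 4⟩,
  ⟨nat_lit 5, Int.ofNat (nat_lit 7429442429303400), nat_lit 328836, nat_lit 0⟩,
  ⟨nat_lit 5, Int.ofNat (nat_lit 5331666717840564), nat_lit 328836, nat_lit 1⟩,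
  ⟨nat_lit 5, Int.ofNat (nat_lit 4689946226635860), nat_lit 328836, nat_lit 2⟩,
  ⟨nat_lit 5, Int.ofNat (nat_lit 7615980609950796), nat_lit 328836, nat_lit 3⟩,
  ⟨nat_lit 5, Int.ofNat (nat_lit 5522054207421184), nat_lit 328836, nat_lit 4⟩,
  ⟨nat_lit 5, Int.ofNat (nat_lit 3313947554798922232), nat_lit 525332, nat_lit 0⟩,
  ⟨nat_lit 5, Int.ofNat (nat_lit 22200752503408), nat_lit 525332, nat_lit 1⟩,
  ⟨nat_lit 5, Int.ofNat (nat_lit 32773056686528), nat_lit 525332, nat_lit 2⟩,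
  ⟨nat_lit 5, Int.ofNat (nat_lit 2508109350973443024), nat_lit 525444, nat_lit 0⟩,
  ⟨nat_lit 5, Int.ofNat (nat_lit 6684631478409491368), nat_lit 525444, nat_lit 1⟩,
  ⟨nat_lit 5, Int.ofNat (nat_lit 70442729092260), nat_lit 525444, nat_lit 2⟩,
  ⟨nat_lit 5, Int.ofNat (nat_lit 193434813578812), nat_lit 525444, nat_lit 3⟩]

def r9 : List RowD := [⟨nat_lit 5, Int.ofNat (nat_lit 1935773027179182592), nat_lit 557068, nat_lit 0⟩,
  ⟨nat_lit 5, Int.ofNat (nat_lit 14019683176216172), nat_lit 557068, nat_lit 1⟩,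
  ⟨nat_lit 5, Int.ofNat (nat_lit 897257492857936640), nat_lit 557068, nat_lit 2⟩,
  ⟨nat_lit 5, Int.ofNat (nat_lit 1205724076349792), nat_lit 557068, nat_lit 3⟩,
  ⟨nat_lit 5, Int.ofNat (nat_lit 48687732389837304), nat_lit 557068, nat_lit 4⟩,
  ⟨nat_lit 5, Int.ofNat (nat_lit 2849228358999953408), nat_lit 557076, nat_lit 0⟩,
  ⟨nat_lit 5, Int.ofNat (nat_lit 419402715526324), nat_lit 557076, nat_lit 1⟩,
  ⟨nat_lit 5, Int.ofNat (nat_lit 177433122615720), nat_lit 557076, nat_lit 2⟩,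
  ⟨nat_lit 5, Int.ofNat (nat_lit 76027253152028), nat_lit 557076, nat_lit 3⟩,
  ⟨nat_lit 5, Int.ofNat (nat_lit 745236882451580), nat_lit 557076, nat_lit 4⟩,
  ⟨nat_lit 5, Int.ofNat (nat_lit 346545919078227968), nat_lit 557124, nat_lit 0⟩,
  ⟨nat_lit 5, Int.ofNat (nat_lit 588160842605284), nat_lit 557124, nat_lit 1⟩,
  ⟨nat_lit 5, Int.ofNat (nat_lit 461400832325676), nat_lit 557124, nat_lit 2⟩,
  ⟨nat_lit 5, Int.ofNat (nat_lit 101290267040500), nat_lit 557124, nat_lit 3⟩,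
  ⟨nat_lit 5, Int.ofNat (nat_lit 3516551467883056), nat_lit 557124, nat_lit 4⟩,
  ⟨nat_lit 5, Int.ofNat (nat_lit 427088133255159808), nat_lit 557188, nat_lit 0⟩,
  ⟨nat_lit 5, Int.ofNat (nat_lit 1816167279529516), nat_lit 557188, nat_lit 1⟩,
  ⟨nat_lit 5, Int.ofNat (nat_lit 246370088390792), nat_lit 557188, nat_lit 2⟩,
  ⟨nat_lit 5, Int.ofNat (nat_lit 135056540302384), nat_lit 557188, nat_lit 3⟩,
  ⟨nat_lit 5, Int.ofNat (nat_lit 384920149173900), nat_lit 557188, nat_lit 4⟩,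
  ⟨nat_lit 5, Int.ofNat (nat_lit 436533852862015296), nat_lit 557636, nat_lit 0⟩,
  ⟨nat_lit 5, Int.ofNat (nat_lit 2916772718125459456), nat_lit 557636, nat_lit 1⟩,
  ⟨nat_lit 5, Int.ofNat (nat_lit 2422042913697529856), nat_lit 557636, nat_lit 2⟩,
  ⟨nat_lit 5, Int.ofNat (nat_lit 172541176160087392), nat_lit 557636, nat_lit 3⟩,
  ⟨nat_lit 5, Int.ofNat (nat_lit 3368378171459591680), nat_lit 557636, nat_lit 4⟩,
  ⟨nat_lit 5, Int.ofNat (nat_lit 310302758802054208), nat_lit 557700, nat_lit 0⟩,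
  ⟨nat_lit 5, Int.ofNat (nat_lit 4442874882748393984), nat_lit 557700, nat_lit 1⟩,
  ⟨nat_lit 5, Int.ofNat (nat_lit 8091798572334184), nat_lit 557700, nat_lit 2⟩,
  ⟨nat_lit 5, Int.ofNat (nat_lit 402029222557535040), nat_lit 557700, nat_lit 3⟩,
  ⟨nat_lit 5, Int.ofNat (nat_lit 9001889158400860), nat_lit 557700, nat_lit 4⟩]

def r10 : List RowD := [⟨nat_lit 5, Int.ofNat (nat_lit 1326873656308256512), nat_lit 558148, nat_lit 0⟩,
  ⟨nat_lit 5, Int.ofNat (nat_lit 611468064569620), nat_lit 558148, nat_lit 1⟩,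
  ⟨nat_lit 5, Int.ofNat (nat_lit 2198463928933488), nat_lit 558148, nat_lit 2⟩,
  ⟨nat_lit 5, Int.ofNat (nat_lit 623391947720164), nat_lit 558148, nat_lit 3⟩,
  ⟨nat_lit 5, Int.ofNat (nat_lit 1450787579093376256), nat_lit 558148, nat_lit 4⟩,
  ⟨nat_lit 5, Int.ofNat (nat_lit 8774472319530016768), nat_lit 558212, nat_lit 0⟩,
  ⟨nat_lit 5, Int.ofNat (nat_lit 26989658933759960), nat_lit 558212, nat_lit 1⟩,
  ⟨nat_lit 5, Int.ofNat (nat_lit 8529966505299220), nat_lit 558212, nat_lit 2⟩,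
  ⟨nat_lit 5, Int.ofNat (nat_lit 5797924987571624), nat_lit 558212, nat_lit 3⟩,
  ⟨nat_lit 5, Int.ofNat (nat_lit 5744459788552677376), nat_lit 558212, nat_lit 4⟩,
  ⟨nat_lit 5, Int.ofNat (nat_lit 25132521325332564), nat_lit 589836, nat_lit 0⟩,
  ⟨nat_lit 5, Int.ofNat (nat_lit 1805120802090040), nat_lit 589836, nat_lit 1⟩,
  ⟨nat_lit 5, Int.ofNat (nat_lit 6185105798562595840), nat_lit 589836, nat_lit 2⟩,
  ⟨nat_lit 5, Int.ofNat (nat_lit 1286431884573852), nat_lit 589836, nat_lit 3⟩,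
  ⟨nat_lit 5, Int.ofNat (nat_lit 1912677932937720), nat_lit 589836, nat_lit 4⟩,
  ⟨nat_lit 5, Int.ofNat (nat_lit 1899219421916321928), nat_lit 589844, nat_lit 0⟩,
  ⟨nat_lit 5, Int.ofNat (nat_lit 86326075999300), nat_lit 589844, nat_lit 1⟩,
  ⟨nat_lit 5, Int.ofNat (nat_lit 2142142104188392868), nat_lit 589844, nat_lit 2⟩,
  ⟨nat_lit 5, Int.ofNat (nat_lit 56167005709568), nat_lit 589844, nat_lit 3⟩,
  ⟨nat_lit 5, Int.ofNat (nat_lit 107318579385448), nat_lit 589844, nat_lit 4⟩,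
  ⟨nat_lit 5, Int.ofNat (nat_lit 258152770080401536), nat_lit 590404, nat_lit 0⟩,
  ⟨nat_lit 5, Int.ofNat (nat_lit 230804504070956288), nat_lit 590404, nat_lit 1⟩,
  ⟨nat_lit 5, Int.ofNat (nat_lit 2393019760963118592), nat_lit 590404, nat_lit 2⟩,
  ⟨nat_lit 5, Int.ofNat (nat_lit 1756812865112763392), nat_lit 590404, nat_lit 3⟩,
  ⟨nat_lit 5, Int.ofNat (nat_lit 440592746494114240), nat_lit 590404, nat_lit 4⟩,
  ⟨nat_lit 5, Int.ofNat (nat_lit 5183914628735744000), nat_lit 590468, nat_lit 0⟩,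
  ⟨nat_lit 5, Int.ofNat (nat_lit 27691796503625720), nat_lit 590468, nat_lit 1⟩,
  ⟨nat_lit 5, Int.ofNat (nat_lit 63616536503786520), nat_lit 590468, nat_lit 2⟩,
  ⟨nat_lit 5, Int.ofNat (nat_lit 11929818458549080), nat_lit 590468, nat_lit 3⟩,
  ⟨nat_lit 5, Int.ofNat (nat_lit 15697223540938312), nat_lit 590468, nat_lit 4⟩]

def r11 : List RowD := [⟨nat_lit 5, Int.ofNat (nat_lit 324283068171465920), nat_lit 590916, nat_lit 0⟩,
  ⟨nat_lit 5, Int.ofNat (nat_lit 4409783905847392), nat_lit 590916, nat_lit 1⟩,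
  ⟨nat_lit 5, Int.ofNat (nat_lit 7111763501943984), nat_lit 590916, nat_lit 2⟩,
  ⟨nat_lit 5, Int.ofNat (nat_lit 18046869650365432), nat_lit 590916, nat_lit 3⟩,
  ⟨nat_lit 5, Int.ofNat (nat_lit 55618843109333944), nat_lit 590916, nat_lit 4⟩,
  ⟨nat_lit 5, Int.ofNat (nat_lit 3834234514849956), nat_lit 590980, nat_lit 0⟩,
  ⟨nat_lit 5, Int.ofNat (nat_lit 1331296600387216), nat_lit 590980, nat_lit 1⟩,
  ⟨nat_lit 5, Int.ofNat (nat_lit 3922417425869956), nat_lit 590980, nat_lit 2⟩,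
  ⟨nat_lit 5, Int.ofNat (nat_lit 1313890777861460), nat_lit 590980, nat_lit 3⟩,
  ⟨nat_lit 5, Int.ofNat (nat_lit 93830878107060), nat_lit 590980, nat_lit 4⟩,
  ⟨nat_lit 5, Int.ofNat (nat_lit 24219483047467632), nat_lit 16809996, nat_lit 0⟩,
  ⟨nat_lit 5, Int.ofNat (nat_lit 2773433557407304), nat_lit 16809996, nat_lit 1⟩,
  ⟨nat_lit 5, Int.ofNat (nat_lit 65797802992142664), nat_lit 16809996, nat_lit 2⟩,
  ⟨nat_lit 5, Int.ofNat (nat_lit 124832683184452), nat_lit 16809996, nat_lit 3⟩,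
  ⟨nat_lit 5, Int.ofNat (nat_lit 7371567635149400), nat_lit 16810004, nat_lit 0⟩,
  ⟨nat_lit 5, Int.ofNat (nat_lit 1313963938522588), nat_lit 16810004, nat_lit 1⟩,
  ⟨nat_lit 5, Int.ofNat (nat_lit 585663994239491200), nat_lit 16810004, nat_lit 2⟩,
  ⟨nat_lit 5, Int.ofNat (nat_lit 129068032529516), nat_lit 16810004, nat_lit 3⟩,
  ⟨nat_lit 5, Int.ofNat (nat_lit 1461370381187048), nat_lit 16810500, nat_lit 0⟩,
  ⟨nat_lit 5, Int.ofNat (nat_lit 4367546758324644), nat_lit 16810500, nat_lit 1⟩,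
  ⟨nat_lit 5, Int.ofNat (nat_lit 1999777822979432), nat_lit 16810500, nat_lit 2⟩,
  ⟨nat_lit 5, Int.ofNat (nat_lit 4922317148432720), nat_lit 16810500, nat_lit 3⟩,
  ⟨nat_lit 5, Int.ofNat (nat_lit 1018770844389884), nat_lit 16810500, nat_lit 4⟩,
  ⟨nat_lit 5, Int.ofNat (nat_lit 128842113064478448), nat_lit 16810564, nat_lit 0⟩,
  ⟨nat_lit 5, Int.ofNat (nat_lit 449397231658599424), nat_lit 16810564, nat_lit 1⟩,
  ⟨nat_lit 5, Int.ofNat (nat_lit 266940490877321696), nat_lit 16810564, nat_lit 2⟩,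
  ⟨nat_lit 5, Int.ofNat (nat_lit 260949009739070176), nat_lit 16810564, nat_lit 3⟩,
  ⟨nat_lit 5, Int.ofNat (nat_lit 174623597706125248), nat_lit 16810564, nat_lit 4⟩,
  ⟨nat_lit 5, Int.ofNat (nat_lit 13904862204628912), nat_lit 16810628, nat_lit 0⟩,
  ⟨nat_lit 5, Int.ofNat (nat_lit 3442202108716156416), nat_lit 16810628, nat_lit 1⟩]

def r12 : List RowD := [⟨nat_lit 5, Int.ofNat (nat_lit 61707712878702176), nat_lit 16810628, nat_lit 2⟩,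
  ⟨nat_lit 5, Int.ofNat (nat_lit 24976745375130524), nat_lit 16810628, nat_lit 3⟩,
  ⟨nat_lit 5, Int.ofNat (nat_lit 59834927542465360), nat_lit 16810628, nat_lit 4⟩,
  ⟨nat_lit 5, Int.ofNat (nat_lit 195973807226108000), nat_lit 16811012, nat_lit 0⟩,
  ⟨nat_lit 5, Int.ofNat (nat_lit 28900978651458472), nat_lit 16811012, nat_lit 1⟩,
  ⟨nat_lit 5, Int.ofNat (nat_lit 79669453517682960), nat_lit 16811012, nat_lit 2⟩,
  ⟨nat_lit 5, Int.ofNat (nat_lit 6933588508364216), nat_lit 16811012, nat_lit 3⟩,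
  ⟨nat_lit 5, Int.ofNat (nat_lit 192664296634916), nat_lit 16811012, nat_lit 4⟩,
  ⟨nat_lit 5, Int.ofNat (nat_lit 4621860965848378368), nat_lit 16811076, nat_lit 0⟩,
  ⟨nat_lit 5, Int.ofNat (nat_lit 3153101031577744), nat_lit 16811076, nat_lit 1⟩,
  ⟨nat_lit 5, Int.ofNat (nat_lit 4335636460619433984), nat_lit 16811076, nat_lit 2⟩,
  ⟨nat_lit 5, Int.ofNat (nat_lit 3172418056333720), nat_lit 16811076, nat_lit 3⟩,
  ⟨nat_lit 5, Int.ofNat (nat_lit 2435453041360188), nat_lit 16811076, nat_lit 4⟩,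
  ⟨nat_lit 5, Int.ofNat (nat_lit 1965142854317879552), nat_lit 16811140, nat_lit 0⟩,
  ⟨nat_lit 5, Int.ofNat (nat_lit 4971432822755592192), nat_lit 16811140, nat_lit 1⟩,
  ⟨nat_lit 5, Int.ofNat (nat_lit 311147608839301952), nat_lit 16811140, nat_lit 2⟩,
  ⟨nat_lit 5, Int.ofNat (nat_lit 52784089951993680), nat_lit 16811140, nat_lit 3⟩,
  ⟨nat_lit 5, Int.ofNat (nat_lit 166076427907137536), nat_lit 16811140, nat_lit 4⟩,
  ⟨nat_lit 5, Int.ofNat (nat_lit 1757047710340736), nat_lit 16842764, nat_lit 0⟩,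
  ⟨nat_lit 5, Int.ofNat (nat_lit 2047226847024452), nat_lit 16842764, nat_lit 1⟩,
  ⟨nat_lit 5, Int.ofNat (nat_lit 3092931610347219456), nat_lit 16842764, nat_lit 2⟩,
  ⟨nat_lit 5, Int.ofNat (nat_lit 1160930517556480000), nat_lit 16842764, nat_lit 3⟩,
  ⟨nat_lit 5, Int.ofNat (nat_lit 4469112333983140), nat_lit 16842764, nat_lit 4⟩,
  ⟨nat_lit 5, Int.ofNat (nat_lit 20309036556085884), nat_lit 16842772, nat_lit 0⟩,
  ⟨nat_lit 5, Int.ofNat (nat_lit 3875826093345988), nat_lit 16842772, nat_lit 1⟩,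
  ⟨nat_lit 5, Int.ofNat (nat_lit 1959568145683390720), nat_lit 16842772, nat_lit 2⟩,
  ⟨nat_lit 5, Int.ofNat (nat_lit 652624632122042752), nat_lit 16842772, nat_lit 3⟩,
  ⟨nat_lit 5, Int.ofNat (nat_lit 5962710813430800), nat_lit 16842772, nat_lit 4⟩,
  ⟨nat_lit 5, Int.ofNat (nat_lit 15270082056184956), nat_lit 16843268, nat_lit 0⟩,
  ⟨nat_lit 5, Int.ofNat (nat_lit 3861551511275544), nat_lit 16843268, nat_lit 1⟩]

def r13 : List RowD := [⟨nat_lit 5, Int.ofNat (nat_lit 4298049842201768), nat_lit 16843268, nat_lit 2⟩,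
  ⟨nat_lit 5, Int.ofNat (nat_lit 3772457637136596), nat_lit 16843268, nat_lit 3⟩,
  ⟨nat_lit 5, Int.ofNat (nat_lit 571555574589910400), nat_lit 16843268, nat_lit 4⟩,
  ⟨nat_lit 5, Int.ofNat (nat_lit 869616150457397760), nat_lit 16843332, nat_lit 0⟩,
  ⟨nat_lit 5, Int.ofNat (nat_lit 673335364195274880), nat_lit 16843332, nat_lit 1⟩,
  ⟨nat_lit 5, Int.ofNat (nat_lit 947390873370350976), nat_lit 16843332, nat_lit 2⟩,
  ⟨nat_lit 5, Int.ofNat (nat_lit 521715985638521984), nat_lit 16843332, nat_lit 3⟩,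
  ⟨nat_lit 5, Int.ofNat (nat_lit 311404595466449728), nat_lit 16843332, nat_lit 4⟩,
  ⟨nat_lit 5, Int.ofNat (nat_lit 345415825770553088), nat_lit 16843396, nat_lit 0⟩,
  ⟨nat_lit 5, Int.ofNat (nat_lit 6097482746306536448), nat_lit 16843396, nat_lit 1⟩,
  ⟨nat_lit 5, Int.ofNat (nat_lit 7016120264532307968), nat_lit 16843396, nat_lit 2⟩,
  ⟨nat_lit 5, Int.ofNat (nat_lit 2013723299309858560), nat_lit 16843396, nat_lit 3⟩,
  ⟨nat_lit 5, Int.ofNat (nat_lit 385003625957653120), nat_lit 16843396, nat_lit 4⟩,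
  ⟨nat_lit 5, Int.ofNat (nat_lit 611679978858066176), nat_lit 16843780, nat_lit 0⟩,
  ⟨nat_lit 5, Int.ofNat (nat_lit 137550130529800), nat_lit 16843780, nat_lit 1⟩,
  ⟨nat_lit 5, Int.ofNat (nat_lit 510894998026295360), nat_lit 16843780, nat_lit 2⟩,
  ⟨nat_lit 5, Int.ofNat (nat_lit 799595972400680), nat_lit 16843780, nat_lit 3⟩,
  ⟨nat_lit 5, Int.ofNat (nat_lit 422816941918220), nat_lit 16843780, nat_lit 4⟩,
  ⟨nat_lit 5, Int.ofNat (nat_lit 144266648182276064), nat_lit 16843844, nat_lit 0⟩,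
  ⟨nat_lit 5, Int.ofNat (nat_lit 34921880086228548), nat_lit 16843844, nat_lit 1⟩,
  ⟨nat_lit 5, Int.ofNat (nat_lit 351613126981035520), nat_lit 16843844, nat_lit 2⟩,
  ⟨nat_lit 5, Int.ofNat (nat_lit 118593988914869936), nat_lit 16843844, nat_lit 3⟩,
  ⟨nat_lit 5, Int.ofNat (nat_lit 42454574281159584), nat_lit 16843844, nat_lit 4⟩,
  ⟨nat_lit 5, Int.ofNat (nat_lit 15522856373438280), nat_lit 16843908, nat_lit 0⟩,
  ⟨nat_lit 5, Int.ofNat (nat_lit 33666106713118516), nat_lit 16843908, nat_lit 1⟩,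
  ⟨nat_lit 5, Int.ofNat (nat_lit 9052052218093170688), nat_lit 16843908, nat_lit 2⟩,
  ⟨nat_lit 5, Int.ofNat (nat_lit 2295560320616334080), nat_lit 16843908, nat_lit 3⟩,
  ⟨nat_lit 5, Int.ofNat (nat_lit 20543684617471880), nat_lit 16843908, nat_lit 4⟩,
  ⟨nat_lit 5, Int.ofNat (nat_lit 81376705569639936), nat_lit 17072644, nat_lit 0⟩,
  ⟨nat_lit 5, Int.ofNat (nat_lit 5560557607305136), nat_lit 17072644, nat_lit 1⟩]

def r14 : List RowD := [⟨nat_lit 5, Int.ofNat (nat_lit 377534365951624), nat_lit 17072644, nat_lit 2⟩,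
  ⟨nat_lit 5, Int.ofNat (nat_lit 34576419565342620), nat_lit 17072644, nat_lit 3⟩,
  ⟨nat_lit 5, Int.ofNat (nat_lit 1119244796381724288), nat_lit 17072708, nat_lit 0⟩,
  ⟨nat_lit 5, Int.ofNat (nat_lit 2433810623532577792), nat_lit 17072708, nat_lit 1⟩,
  ⟨nat_lit 5, Int.ofNat (nat_lit 145468634903873440), nat_lit 17072708, nat_lit 2⟩,
  ⟨nat_lit 5, Int.ofNat (nat_lit 2051352458092484352), nat_lit 17072708, nat_lit 3⟩,
  ⟨nat_lit 5, Int.ofNat (nat_lit 13316241247599460), nat_lit 17072772, nat_lit 0⟩,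
  ⟨nat_lit 5, Int.ofNat (nat_lit 2589127462348107264), nat_lit 17072772, nat_lit 1⟩,
  ⟨nat_lit 5, Int.ofNat (nat_lit 281113507521081504), nat_lit 17072772, nat_lit 2⟩,
  ⟨nat_lit 5, Int.ofNat (nat_lit 10691381696276384), nat_lit 17072772, nat_lit 3⟩,
  ⟨nat_lit 5, Int.ofNat (nat_lit 254221313872091616), nat_lit 17073156, nat_lit 0⟩,
  ⟨nat_lit 5, Int.ofNat (nat_lit 807693895770741632), nat_lit 17073156, nat_lit 1⟩,
  ⟨nat_lit 5, Int.ofNat (nat_lit 2416554053096324096), nat_lit 17073156, nat_lit 2⟩,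
  ⟨nat_lit 5, Int.ofNat (nat_lit 2512403749239090688), nat_lit 17073156, nat_lit 3⟩,
  ⟨nat_lit 5, Int.ofNat (nat_lit 161451582393321824), nat_lit 17073156, nat_lit 4⟩,
  ⟨nat_lit 5, Int.ofNat (nat_lit 4577373576755127808), nat_lit 17073220, nat_lit 0⟩,
  ⟨nat_lit 5, Int.ofNat (nat_lit 90749779688995008), nat_lit 17073220, nat_lit 1⟩,
  ⟨nat_lit 5, Int.ofNat (nat_lit 155364906503013408), nat_lit 17073220, nat_lit 2⟩,
  ⟨nat_lit 5, Int.ofNat (nat_lit 101217084119031248), nat_lit 17073220, nat_lit 3⟩,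
  ⟨nat_lit 5, Int.ofNat (nat_lit 164663758341440480), nat_lit 17073220, nat_lit 4⟩,
  ⟨nat_lit 5, Int.ofNat (nat_lit 390980459108158784), nat_lit 17073284, nat_lit 0⟩,
  ⟨nat_lit 5, Int.ofNat (nat_lit 993193460466805376), nat_lit 17073284, nat_lit 1⟩,
  ⟨nat_lit 5, Int.ofNat (nat_lit 6605272867889462272), nat_lit 17073284, nat_lit 2⟩,
  ⟨nat_lit 5, Int.ofNat (nat_lit 2574133343747156992), nat_lit 17073284, nat_lit 3⟩,
  ⟨nat_lit 5, Int.ofNat (nat_lit 2302371680240110848), nat_lit 17073284, nat_lit 4⟩,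
  ⟨nat_lit 5, Int.ofNat (nat_lit 92903273604039840), nat_lit 17076228, nat_lit 0⟩,
  ⟨nat_lit 5, Int.ofNat (nat_lit 397878456874117568), nat_lit 17076228, nat_lit 2⟩,
  ⟨nat_lit 5, Int.ofNat (nat_lit 531213783561124864), nat_lit 17076228, nat_lit 3⟩,
  ⟨nat_lit 5, Int.ofNat (nat_lit 44960312515074472), nat_lit 17080324, nat_lit 0⟩,
  ⟨nat_lit 5, Int.ofNat (nat_lit 2947504166584229888), nat_lit 17080324, nat_lit 1⟩]

def r15 : List RowD := [⟨nat_lit 5, Int.ofNat (nat_lit 242680924707191744), nat_lit 17080324, nat_lit 2⟩,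
  ⟨nat_lit 5, Int.ofNat (nat_lit 1098612800733331328), nat_lit 17080324, nat_lit 3⟩,
  ⟨nat_lit 5, Int.ofNat (nat_lit 81540919964628048), nat_lit 17080324, nat_lit 4⟩,
  ⟨nat_lit 5, Int.ofNat (nat_lit 577422436366037120), nat_lit 17104964, nat_lit 0⟩,
  ⟨nat_lit 5, Int.ofNat (nat_lit 1805737497649475840), nat_lit 17104964, nat_lit 1⟩,
  ⟨nat_lit 5, Int.ofNat (nat_lit 311717569195269888), nat_lit 17104964, nat_lit 2⟩,
  ⟨nat_lit 5, Int.ofNat (nat_lit 2448065025201052160), nat_lit 17104964, nat_lit 3⟩,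
  ⟨nat_lit 5, Int.ofNat (nat_lit 230062126004326496), nat_lit 17104964, nat_lit 4⟩,
  ⟨nat_lit 5, Int.ofNat (nat_lit 8168092694492168), nat_lit 17105028, nat_lit 0⟩,
  ⟨nat_lit 5, Int.ofNat (nat_lit 94814187748566032), nat_lit 17105028, nat_lit 1⟩,
  ⟨nat_lit 5, Int.ofNat (nat_lit 7808593829543939072), nat_lit 17105028, nat_lit 2⟩,
  ⟨nat_lit 5, Int.ofNat (nat_lit 7485731710387960), nat_lit 17105028, nat_lit 3⟩,
  ⟨nat_lit 5, Int.ofNat (nat_lit 17081367613480216), nat_lit 17105028, nat_lit 4⟩,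
  ⟨nat_lit 5, Int.ofNat (nat_lit 9127169196119016), nat_lit 17105412, nat_lit 0⟩,
  ⟨nat_lit 5, Int.ofNat (nat_lit 8793862173512696), nat_lit 17105412, nat_lit 1⟩,
  ⟨nat_lit 5, Int.ofNat (nat_lit 15852495669467556), nat_lit 17105412, nat_lit 2⟩,
  ⟨nat_lit 5, Int.ofNat (nat_lit 12194919606158216), nat_lit 17105412, nat_lit 3⟩,
  ⟨nat_lit 5, Int.ofNat (nat_lit 2544450360598832128), nat_lit 17105412, nat_lit 4⟩,
  ⟨nat_lit 5, Int.ofNat (nat_lit 264403345938858752), nat_lit 17105476, nat_lit 0⟩,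
  ⟨nat_lit 5, Int.ofNat (nat_lit 6776954493658704896), nat_lit 17105476, nat_lit 1⟩,
  ⟨nat_lit 5, Int.ofNat (nat_lit 312446153683374272), nat_lit 17105476, nat_lit 2⟩,
  ⟨nat_lit 5, Int.ofNat (nat_lit 901897957211015680), nat_lit 17105476, nat_lit 3⟩,
  ⟨nat_lit 5, Int.ofNat (nat_lit 4927070267529052160), nat_lit 17105476, nat_lit 4⟩,
  ⟨nat_lit 5, Int.ofNat (nat_lit 541689742325066432), nat_lit 17105540, nat_lit 0⟩,
  ⟨nat_lit 5, Int.ofNat (nat_lit 5306164517668844544), nat_lit 17105540, nat_lit 1⟩,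
  ⟨nat_lit 5, Int.ofNat (nat_lit 2343679308242139648), nat_lit 17105540, nat_lit 2⟩,
  ⟨nat_lit 5, Int.ofNat (nat_lit 1210346559976246272), nat_lit 17105540, nat_lit 3⟩,
  ⟨nat_lit 5, Int.ofNat (nat_lit 257771847955097792), nat_lit 17105540, nat_lit 4⟩,
  ⟨nat_lit 5, Int.ofNat (nat_lit 50204172391950352), nat_lit 17105924, nat_lit 0⟩,
  ⟨nat_lit 5, Int.ofNat (nat_lit 6731189337556368), nat_lit 17105924, nat_lit 1⟩]

def r16 : List RowD := [⟨nat_lit 5, Int.ofNat (nat_lit 7390001534246152), nat_lit 17105924, nat_lit 2⟩,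
  ⟨nat_lit 5, Int.ofNat (nat_lit 3784336024099410432), nat_lit 17105924, nat_lit 3⟩,
  ⟨nat_lit 5, Int.ofNat (nat_lit 16141644080943752), nat_lit 17105924, nat_lit 4⟩,
  ⟨nat_lit 5, Int.ofNat (nat_lit 341787815799924928), nat_lit 17105988, nat_lit 0⟩,
  ⟨nat_lit 5, Int.ofNat (nat_lit 1405845584336837376), nat_lit 17105988, nat_lit 1⟩,
  ⟨nat_lit 5, Int.ofNat (nat_lit 2472537892253101568), nat_lit 17105988, nat_lit 2⟩,
  ⟨nat_lit 5, Int.ofNat (nat_lit 1930914680856220672), nat_lit 17105988, nat_lit 3⟩,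
  ⟨nat_lit 5, Int.ofNat (nat_lit 2591842537112406016), nat_lit 17105988, nat_lit 4⟩,
  ⟨nat_lit 5, Int.ofNat (nat_lit 39593376854079312), nat_lit 17106052, nat_lit 0⟩,
  ⟨nat_lit 5, Int.ofNat (nat_lit 14145783447816104), nat_lit 17106052, nat_lit 1⟩,
  ⟨nat_lit 5, Int.ofNat (nat_lit 6748517559644930048), nat_lit 17106052, nat_lit 2⟩,
  ⟨nat_lit 5, Int.ofNat (nat_lit 16981949996313440), nat_lit 17106052, nat_lit 3⟩,
  ⟨nat_lit 5, Int.ofNat (nat_lit 27557347110275688), nat_lit 17106052, nat_lit 4⟩,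
  ⟨nat_lit 5, Int.ofNat (nat_lit 3944770124604540928), nat_lit 17108996, nat_lit 0⟩,
  ⟨nat_lit 5, Int.ofNat (nat_lit 73189447855672752), nat_lit 17108996, nat_lit 1⟩,
  ⟨nat_lit 5, Int.ofNat (nat_lit 490765722833034688), nat_lit 17108996, nat_lit 2⟩,
  ⟨nat_lit 5, Int.ofNat (nat_lit 1760901258418861056), nat_lit 17108996, nat_lit 3⟩,
  ⟨nat_lit 5, Int.ofNat (nat_lit 1916837211148336896), nat_lit 17108996, nat_lit 4⟩,
  ⟨nat_lit 5, Int.ofNat (nat_lit 1673021861480888064), nat_lit 17113092, nat_lit 0⟩,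
  ⟨nat_lit 5, Int.ofNat (nat_lit 1056511544135637504), nat_lit 17113092, nat_lit 1⟩,
  ⟨nat_lit 5, Int.ofNat (nat_lit 763793879873069184), nat_lit 17113092, nat_lit 2⟩,
  ⟨nat_lit 5, Int.ofNat (nat_lit 406836802608194880), nat_lit 17113092, nat_lit 3⟩,
  ⟨nat_lit 5, Int.ofNat (nat_lit 254731721034195040), nat_lit 17113092, nat_lit 4⟩,
  ⟨nat_lit 5, Int.ofNat (nat_lit 2376455210334384128), nat_lit 17335300, nat_lit 0⟩,
  ⟨nat_lit 5, Int.ofNat (nat_lit 100684463802041136), nat_lit 17335300, nat_lit 1⟩,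
  ⟨nat_lit 5, Int.ofNat (nat_lit 836478199639117568), nat_lit 17335300, nat_lit 2⟩,
  ⟨nat_lit 5, Int.ofNat (nat_lit 166572650564022880), nat_lit 17335300, nat_lit 3⟩,
  ⟨nat_lit 5, Int.ofNat (nat_lit 14322975260355293184), nat_lit 17335364, nat_lit 0⟩,
  ⟨nat_lit 5, Int.ofNat (nat_lit 1470334842575760), nat_lit 17335364, nat_lit 1⟩,
  ⟨nat_lit 5, Int.ofNat (nat_lit 2994366821809992), nat_lit 17335364, nat_lit 2⟩]

def r17 : List RowD := [⟨nat_lit 5, Int.ofNat (nat_lit 1624926264102916), nat_lit 17335364, nat_lit 3⟩,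
  ⟨nat_lit 5, Int.ofNat (nat_lit 2286223762619852288), nat_lit 17335428, nat_lit 0⟩,
  ⟨nat_lit 5, Int.ofNat (nat_lit 105562467491981184), nat_lit 17335428, nat_lit 1⟩,
  ⟨nat_lit 5, Int.ofNat (nat_lit 23584579925906364), nat_lit 17335428, nat_lit 2⟩,
  ⟨nat_lit 5, Int.ofNat (nat_lit 21053105157501568), nat_lit 17335428, nat_lit 3⟩,
  ⟨nat_lit 5, Int.ofNat (nat_lit 446370507799099264), nat_lit 17342468, nat_lit 0⟩,
  ⟨nat_lit 5, Int.ofNat (nat_lit 87520229739445056), nat_lit 17342468, nat_lit 2⟩,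
  ⟨nat_lit 5, Int.ofNat (nat_lit 1458403636639902464), nat_lit 17342468, nat_lit 3⟩,
  ⟨nat_lit 5, Int.ofNat (nat_lit 11958603824257652), nat_lit 17367108, nat_lit 0⟩,
  ⟨nat_lit 5, Int.ofNat (nat_lit 1489387391724268), nat_lit 17367108, nat_lit 1⟩,
  ⟨nat_lit 5, Int.ofNat (nat_lit 6531370195790211072), nat_lit 17367108, nat_lit 2⟩,
  ⟨nat_lit 5, Int.ofNat (nat_lit 3277269763476564), nat_lit 17367108, nat_lit 3⟩,
  ⟨nat_lit 5, Int.ofNat (nat_lit 1557542687581320), nat_lit 17367108, nat_lit 4⟩,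
  ⟨nat_lit 5, Int.ofNat (nat_lit 28521441798592180), nat_lit 17367172, nat_lit 0⟩,
  ⟨nat_lit 5, Int.ofNat (nat_lit 22442323831462860), nat_lit 17367172, nat_lit 1⟩,
  ⟨nat_lit 5, Int.ofNat (nat_lit 5742285569519627264), nat_lit 17367172, nat_lit 2⟩,
  ⟨nat_lit 5, Int.ofNat (nat_lit 9129851687223720), nat_lit 17367172, nat_lit 3⟩,
  ⟨nat_lit 5, Int.ofNat (nat_lit 12936619257118104), nat_lit 17367172, nat_lit 4⟩,
  ⟨nat_lit 5, Int.ofNat (nat_lit 1248654378418616832), nat_lit 17367556, nat_lit 0⟩,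
  ⟨nat_lit 5, Int.ofNat (nat_lit 856642865862144256), nat_lit 17367556, nat_lit 1⟩,
  ⟨nat_lit 5, Int.ofNat (nat_lit 70096496269018776), nat_lit 17367556, nat_lit 2⟩,
  ⟨nat_lit 5, Int.ofNat (nat_lit 4389692703547963904), nat_lit 17367556, nat_lit 3⟩,
  ⟨nat_lit 5, Int.ofNat (nat_lit 375054854665408832), nat_lit 17367556, nat_lit 4⟩,
  ⟨nat_lit 5, Int.ofNat (nat_lit 472766867910860544), nat_lit 17367620, nat_lit 0⟩,
  ⟨nat_lit 5, Int.ofNat (nat_lit 117850634869687648), nat_lit 17367620, nat_lit 1⟩,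
  ⟨nat_lit 5, Int.ofNat (nat_lit 1594184233801264128), nat_lit 17367620, nat_lit 2⟩,
  ⟨nat_lit 5, Int.ofNat (nat_lit 141432118853983520), nat_lit 17367620, nat_lit 3⟩,
  ⟨nat_lit 5, Int.ofNat (nat_lit 110953266813615840), nat_lit 17367620, nat_lit 4⟩,
  ⟨nat_lit 5, Int.ofNat (nat_lit 953280178710723584), nat_lit 17367684, nat_lit 0⟩,
  ⟨nat_lit 5, Int.ofNat (nat_lit 2837911737120815104), nat_lit 17367684, nat_lit 1⟩]

def r18 : List RowD := [⟨nat_lit 5, Int.ofNat (nat_lit 6803740697561296896), nat_lit 17367684, nat_lit 2⟩,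
  ⟨nat_lit 5, Int.ofNat (nat_lit 2381672668489708032), nat_lit 17367684, nat_lit 3⟩,
  ⟨nat_lit 5, Int.ofNat (nat_lit 1587973487517210880), nat_lit 17367684, nat_lit 4⟩,
  ⟨nat_lit 5, Int.ofNat (nat_lit 3694607926767400448), nat_lit 17368068, nat_lit 0⟩,
  ⟨nat_lit 5, Int.ofNat (nat_lit 537386231847907392), nat_lit 17368068, nat_lit 1⟩,
  ⟨nat_lit 5, Int.ofNat (nat_lit 96977189446343088), nat_lit 17368068, nat_lit 2⟩,
  ⟨nat_lit 5, Int.ofNat (nat_lit 1315068998260265216), nat_lit 17368068, nat_lit 3⟩,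
  ⟨nat_lit 5, Int.ofNat (nat_lit 8731760824388104), nat_lit 17368068, nat_lit 4⟩,
  ⟨nat_lit 5, Int.ofNat (nat_lit 1071405946140166528), nat_lit 17368132, nat_lit 0⟩,
  ⟨nat_lit 5, Int.ofNat (nat_lit 17147699944654528), nat_lit 17368132, nat_lit 1⟩,
  ⟨nat_lit 5, Int.ofNat (nat_lit 16866358096243464), nat_lit 17368132, nat_lit 2⟩,
  ⟨nat_lit 5, Int.ofNat (nat_lit 788456971647507456), nat_lit 17368132, nat_lit 3⟩,
  ⟨nat_lit 5, Int.ofNat (nat_lit 17348564328362104), nat_lit 17368132, nat_lit 4⟩,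
  ⟨nat_lit 5, Int.ofNat (nat_lit 47492897012761152), nat_lit 17368196, nat_lit 0⟩,
  ⟨nat_lit 5, Int.ofNat (nat_lit 15454298744496420), nat_lit 17368196, nat_lit 1⟩,
  ⟨nat_lit 5, Int.ofNat (nat_lit 2348431188902891008), nat_lit 17368196, nat_lit 2⟩,
  ⟨nat_lit 5, Int.ofNat (nat_lit 16039882420643608), nat_lit 17368196, nat_lit 3⟩,
  ⟨nat_lit 5, Int.ofNat (nat_lit 2516891166797121536), nat_lit 17368196, nat_lit 4⟩,
  ⟨nat_lit 5, Int.ofNat (nat_lit 7560644628219216), nat_lit 17371140, nat_lit 0⟩,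
  ⟨nat_lit 5, Int.ofNat (nat_lit 5648966137150726144), nat_lit 17371140, nat_lit 1⟩,
  ⟨nat_lit 5, Int.ofNat (nat_lit 1407842558312440064), nat_lit 17371140, nat_lit 2⟩,
  ⟨nat_lit 5, Int.ofNat (nat_lit 19914703471260272), nat_lit 17371140, nat_lit 3⟩,
  ⟨nat_lit 5, Int.ofNat (nat_lit 5522748894020783104), nat_lit 17371140, nat_lit 4⟩,
  ⟨nat_lit 5, Int.ofNat (nat_lit 5527544856665248), nat_lit 17375236, nat_lit 0⟩,
  ⟨nat_lit 5, Int.ofNat (nat_lit 7269046720611456000), nat_lit 17375236, nat_lit 1⟩,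
  ⟨nat_lit 5, Int.ofNat (nat_lit 793604934044288), nat_lit 17375236, nat_lit 2⟩,
  ⟨nat_lit 5, Int.ofNat (nat_lit 3851735682471033344), nat_lit 17375236, nat_lit 3⟩,
  ⟨nat_lit 5, Int.ofNat (nat_lit 2657346400359144), nat_lit 17375236, nat_lit 4⟩,
  ⟨nat_lit 5, Int.ofNat (nat_lit 189130705908052608), nat_lit 33619980, nat_lit 0⟩,
  ⟨nat_lit 5, Int.ofNat (nat_lit 46813869801405720), nat_lit 33619980, nat_lit 1⟩]

def r19 : List RowD := [⟨nat_lit 5, Int.ofNat (nat_lit 463025384293456), nat_lit 33619980, nat_lit 2⟩,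
  ⟨nat_lit 5, Int.ofNat (nat_lit 2959303791484047360), nat_lit 33619980, nat_lit 3⟩,
  ⟨nat_lit 5, Int.ofNat (nat_lit 2891831201986861836), nat_lit 33619988, nat_lit 0⟩,
  ⟨nat_lit 5, Int.ofNat (nat_lit 36731613163264), nat_lit 33619988, nat_lit 1⟩,
  ⟨nat_lit 5, Int.ofNat (nat_lit 3782345091534779392), nat_lit 33619988, nat_lit 2⟩,
  ⟨nat_lit 5, Int.ofNat (nat_lit 125931830265760), nat_lit 33619988, nat_lit 3⟩,
  ⟨nat_lit 5, Int.ofNat (nat_lit 1547930806624949504), nat_lit 33620548, nat_lit 0⟩,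
  ⟨nat_lit 5, Int.ofNat (nat_lit 3153300957439814656), nat_lit 33620548, nat_lit 1⟩,
  ⟨nat_lit 5, Int.ofNat (nat_lit 231952204839779648), nat_lit 33620548, nat_lit 2⟩,
  ⟨nat_lit 5, Int.ofNat (nat_lit 76351671741347552), nat_lit 33620548, nat_lit 3⟩,
  ⟨nat_lit 5, Int.ofNat (nat_lit 1842854484777624064), nat_lit 33620548, nat_lit 4⟩,
  ⟨nat_lit 5, Int.ofNat (nat_lit 6865898620804052), nat_lit 33620612, nat_lit 0⟩,
  ⟨nat_lit 5, Int.ofNat (nat_lit 26701630036896596), nat_lit 33620612, nat_lit 1⟩,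
  ⟨nat_lit 5, Int.ofNat (nat_lit 9510497233477429248), nat_lit 33620612, nat_lit 2⟩,
  ⟨nat_lit 5, Int.ofNat (nat_lit 5380038204674648), nat_lit 33620612, nat_lit 3⟩,
  ⟨nat_lit 5, Int.ofNat (nat_lit 84270538748331184), nat_lit 33620612, nat_lit 4⟩,
  ⟨nat_lit 5, Int.ofNat (nat_lit 42864586536020320), nat_lit 33621060, nat_lit 0⟩,
  ⟨nat_lit 5, Int.ofNat (nat_lit 8817887123714464), nat_lit 33621060, nat_lit 1⟩,
  ⟨nat_lit 5, Int.ofNat (nat_lit 3590182004260796928), nat_lit 33621060, nat_lit 2⟩,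
  ⟨nat_lit 5, Int.ofNat (nat_lit 22400651624890496), nat_lit 33621060, nat_lit 3⟩,
  ⟨nat_lit 5, Int.ofNat (nat_lit 9656826257448192), nat_lit 33621060, nat_lit 4⟩,
  ⟨nat_lit 5, Int.ofNat (nat_lit 3175357545712440), nat_lit 33621124, nat_lit 0⟩,
  ⟨nat_lit 5, Int.ofNat (nat_lit 1218598443136944), nat_lit 33621124, nat_lit 1⟩,
  ⟨nat_lit 5, Int.ofNat (nat_lit 10275675510424147968), nat_lit 33621124, nat_lit 2⟩,
  ⟨nat_lit 5, Int.ofNat (nat_lit 1253737693635848), nat_lit 33621124, nat_lit 3⟩,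
  ⟨nat_lit 5, Int.ofNat (nat_lit 90285433829248), nat_lit 33621124, nat_lit 4⟩,
  ⟨nat_lit 5, Int.ofNat (nat_lit 1388369634708160), nat_lit 33882628, nat_lit 0⟩,
  ⟨nat_lit 5, Int.ofNat (nat_lit 334887093746082240), nat_lit 33882628, nat_lit 1⟩,
  ⟨nat_lit 5, Int.ofNat (nat_lit 2052262500803376), nat_lit 33882628, nat_lit 2⟩,
  ⟨nat_lit 5, Int.ofNat (nat_lit 129880355393754752), nat_lit 33882628, nat_lit 3⟩]

def r20 : List RowD := [⟨nat_lit 5, Int.ofNat (nat_lit 89823390483990944), nat_lit 33882692, nat_lit 0⟩,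
  ⟨nat_lit 5, Int.ofNat (nat_lit 3802631515653633024), nat_lit 33882692, nat_lit 1⟩,
  ⟨nat_lit 5, Int.ofNat (nat_lit 74736759682568256), nat_lit 33882692, nat_lit 2⟩,
  ⟨nat_lit 5, Int.ofNat (nat_lit 2291233635185110528), nat_lit 33882692, nat_lit 3⟩,
  ⟨nat_lit 5, Int.ofNat (nat_lit 16354579599754040), nat_lit 33882756, nat_lit 0⟩,
  ⟨nat_lit 5, Int.ofNat (nat_lit 98007966012903776), nat_lit 33882756, nat_lit 1⟩,
  ⟨nat_lit 5, Int.ofNat (nat_lit 12412236105966606336), nat_lit 33882756, nat_lit 2⟩,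
  ⟨nat_lit 5, Int.ofNat (nat_lit 15927486969295856), nat_lit 33882756, nat_lit 3⟩,
  ⟨nat_lit 5, Int.ofNat (nat_lit 4638691338986186752), nat_lit 33883140, nat_lit 0⟩,
  ⟨nat_lit 5, Int.ofNat (nat_lit 6924593010630268), nat_lit 33883140, nat_lit 1⟩,
  ⟨nat_lit 5, Int.ofNat (nat_lit 2491505875579806720), nat_lit 33883140, nat_lit 2⟩,
  ⟨nat_lit 5, Int.ofNat (nat_lit 10335161567239912), nat_lit 33883140, nat_lit 3⟩,
  ⟨nat_lit 5, Int.ofNat (nat_lit 3255530434927684608), nat_lit 33883140, nat_lit 4⟩,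
  ⟨nat_lit 5, Int.ofNat (nat_lit 1072189274137644928), nat_lit 33883204, nat_lit 0⟩,
  ⟨nat_lit 5, Int.ofNat (nat_lit 1107426576092790272), nat_lit 33883204, nat_lit 1⟩,
  ⟨nat_lit 5, Int.ofNat (nat_lit 789099984411078272), nat_lit 33883204, nat_lit 2⟩,
  ⟨nat_lit 5, Int.ofNat (nat_lit 1453924792762439168), nat_lit 33883204, nat_lit 3⟩,
  ⟨nat_lit 5, Int.ofNat (nat_lit 1079879986094333440), nat_lit 33883204, nat_lit 4⟩,
  ⟨nat_lit 5, Int.ofNat (nat_lit 3864879905394784256), nat_lit 33883268, nat_lit 0⟩,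
  ⟨nat_lit 5, Int.ofNat (nat_lit 15714969154712816), nat_lit 33883268, nat_lit 1⟩,
  ⟨nat_lit 5, Int.ofNat (nat_lit 95082601751123744), nat_lit 33883268, nat_lit 2⟩,
  ⟨nat_lit 5, Int.ofNat (nat_lit 16049557261998184), nat_lit 33883268, nat_lit 3⟩,
  ⟨nat_lit 5, Int.ofNat (nat_lit 1545077763144690688), nat_lit 33883268, nat_lit 4⟩,
  ⟨nat_lit 5, Int.ofNat (nat_lit 3208166811775069696), nat_lit 33886212, nat_lit 0⟩,
  ⟨nat_lit 5, Int.ofNat (nat_lit 16901555790718136), nat_lit 33886212, nat_lit 2⟩,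
  ⟨nat_lit 5, Int.ofNat (nat_lit 4056595648013099008), nat_lit 33886212, nat_lit 3⟩,
  ⟨nat_lit 5, Int.ofNat (nat_lit 588071447157556), nat_lit 33890308, nat_lit 0⟩,
  ⟨nat_lit 5, Int.ofNat (nat_lit 1975321377616948), nat_lit 33890308, nat_lit 1⟩,
  ⟨nat_lit 5, Int.ofNat (nat_lit 10266596835484456960), nat_lit 33890308, nat_lit 2⟩,
  ⟨nat_lit 5, Int.ofNat (nat_lit 998912347539021696), nat_lit 33890308, nat_lit 3⟩]

def r21 : List RowD := [⟨nat_lit 5, Int.ofNat (nat_lit 318464537820888384), nat_lit 33890308, nat_lit 4⟩,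
  ⟨nat_lit 5, Int.ofNat (nat_lit 4887531618996904), nat_lit 34145284, nat_lit 0⟩,
  ⟨nat_lit 5, Int.ofNat (nat_lit 54945452395276), nat_lit 34145284, nat_lit 1⟩,
  ⟨nat_lit 5, Int.ofNat (nat_lit 4450196915758985216), nat_lit 34145284, nat_lit 2⟩,
  ⟨nat_lit 5, Int.ofNat (nat_lit 1147642596797764), nat_lit 34145284, nat_lit 3⟩,
  ⟨nat_lit 5, Int.ofNat (nat_lit 64863842385573512), nat_lit 34145348, nat_lit 0⟩,
  ⟨nat_lit 5, Int.ofNat (nat_lit 88874142957728272), nat_lit 34145348, nat_lit 1⟩,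
  ⟨nat_lit 5, Int.ofNat (nat_lit 2314862074911837184), nat_lit 34145348, nat_lit 2⟩,
  ⟨nat_lit 5, Int.ofNat (nat_lit 14887356229869352), nat_lit 34145348, nat_lit 3⟩,
  ⟨nat_lit 5, Int.ofNat (nat_lit 1096759524337400), nat_lit 34145412, nat_lit 0⟩,
  ⟨nat_lit 5, Int.ofNat (nat_lit 2447233759348256), nat_lit 34145412, nat_lit 1⟩,
  ⟨nat_lit 5, Int.ofNat (nat_lit 2074773975178440), nat_lit 34145412, nat_lit 2⟩,
  ⟨nat_lit 5, Int.ofNat (nat_lit 179179740939284256), nat_lit 34145412, nat_lit 3⟩,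
  ⟨nat_lit 5, Int.ofNat (nat_lit 3582021971994372), nat_lit 34152452, nat_lit 0⟩,
  ⟨nat_lit 5, Int.ofNat (nat_lit 1074402203893941804), nat_lit 34152452, nat_lit 2⟩,
  ⟨nat_lit 5, Int.ofNat (nat_lit 8379554585497248), nat_lit 34152452, nat_lit 3⟩,
  ⟨nat_lit 5, Int.ofNat (nat_lit 7213583808334856), nat_lit 262683, nat_lit 0⟩,
  ⟨nat_lit 5, Int.ofNat (nat_lit 1705282939568868), nat_lit 262683, nat_lit 1⟩,
  ⟨nat_lit 5, Int.ofNat (nat_lit 5121010001102944), nat_lit 262683, nat_lit 3⟩,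
  ⟨nat_lit 5, Int.ofNat (nat_lit 11981316483606680), nat_lit 263195, nat_lit 0⟩,
  ⟨nat_lit 5, Int.ofNat (nat_lit 1504107318672116), nat_lit 263195, nat_lit 1⟩,
  ⟨nat_lit 5, Int.ofNat (nat_lit 1667240424883748), nat_lit 263195, nat_lit 3⟩,
  ⟨nat_lit 5, Int.ofNat (nat_lit 1473856670047272), nat_lit 263195, nat_lit 4⟩,
  ⟨nat_lit 5, Int.ofNat (nat_lit 43074607381834960), nat_lit 266267, nat_lit 0⟩,
  ⟨nat_lit 5, Int.ofNat (nat_lit 13075258497309176), nat_lit 266267, nat_lit 1⟩,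
  ⟨nat_lit 5, Int.ofNat (nat_lit 48431784112451744), nat_lit 266267, nat_lit 2⟩,
  ⟨nat_lit 5, Int.ofNat (nat_lit 6859554663774108), nat_lit 266267, nat_lit 3⟩,
  ⟨nat_lit 5, Int.ofNat (nat_lit 17698040136185672), nat_lit 266267, nat_lit 4⟩,
  ⟨nat_lit 5, Int.ofNat (nat_lit 15537615148644016), nat_lit 270363, nat_lit 0⟩,
  ⟨nat_lit 5, Int.ofNat (nat_lit 24164607728719792), nat_lit 270363, nat_lit 1⟩]

def r22 : List RowD := [⟨nat_lit 5, Int.ofNat (nat_lit 60298651792215712), nat_lit 270363, nat_lit 2⟩,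
  ⟨nat_lit 5, Int.ofNat (nat_lit 4856923776316920), nat_lit 270363, nat_lit 3⟩,
  ⟨nat_lit 5, Int.ofNat (nat_lit 3232786163639144), nat_lit 270363, nat_lit 4⟩,
  ⟨nat_lit 5, Int.ofNat (nat_lit 4494579360074580480), nat_lit 299035, nat_lit 0⟩,
  ⟨nat_lit 5, Int.ofNat (nat_lit 11803942294632600), nat_lit 299035, nat_lit 1⟩,
  ⟨nat_lit 5, Int.ofNat (nat_lit 10051897948985464), nat_lit 299035, nat_lit 3⟩,
  ⟨nat_lit 5, Int.ofNat (nat_lit 100914385035885200), nat_lit 299035, nat_lit 4⟩,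
  ⟨nat_lit 5, Int.ofNat (nat_lit 202674808573087488), nat_lit 303131, nat_lit 0⟩,
  ⟨nat_lit 5, Int.ofNat (nat_lit 86975284151535984), nat_lit 303131, nat_lit 1⟩,
  ⟨nat_lit 5, Int.ofNat (nat_lit 142363151676901056), nat_lit 303131, nat_lit 2⟩,
  ⟨nat_lit 5, Int.ofNat (nat_lit 5271479041487517696), nat_lit 303131, nat_lit 3⟩,
  ⟨nat_lit 5, Int.ofNat (nat_lit 83835488036733504), nat_lit 303131, nat_lit 4⟩,
  ⟨nat_lit 5, Int.ofNat (nat_lit 7717283967374220), nat_lit 335899, nat_lit 0⟩,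
  ⟨nat_lit 5, Int.ofNat (nat_lit 5585246273675584), nat_lit 335899, nat_lit 1⟩,
  ⟨nat_lit 5, Int.ofNat (nat_lit 4973884455926472), nat_lit 335899, nat_lit 3⟩,
  ⟨nat_lit 5, Int.ofNat (nat_lit 7627363642563824), nat_lit 335899, nat_lit 4⟩,
  ⟨nat_lit 5, Int.ofNat (nat_lit 729350551517432), nat_lit 525339, nat_lit 0⟩,
  ⟨nat_lit 5, Int.ofNat (nat_lit 26542906731608), nat_lit 525339, nat_lit 1⟩,
  ⟨nat_lit 5, Int.ofNat (nat_lit 32223698857196), nat_lit 525339, nat_lit 3⟩,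
  ⟨nat_lit 5, Int.ofNat (nat_lit 4613103182261676), nat_lit 528411, nat_lit 0⟩,
  ⟨nat_lit 5, Int.ofNat (nat_lit 121334224104184), nat_lit 528411, nat_lit 1⟩,
  ⟨nat_lit 5, Int.ofNat (nat_lit 397525184326500), nat_lit 528411, nat_lit 2⟩,
  ⟨nat_lit 5, Int.ofNat (nat_lit 62167060844060), nat_lit 528411, nat_lit 3⟩,
  ⟨nat_lit 5, Int.ofNat (nat_lit 502149606120248), nat_lit 528411, nat_lit 4⟩,
  ⟨nat_lit 5, Int.ofNat (nat_lit 4425278605325968), nat_lit 532507, nat_lit 0⟩,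
  ⟨nat_lit 5, Int.ofNat (nat_lit 21762261861735572), nat_lit 532507, nat_lit 1⟩,
  ⟨nat_lit 5, Int.ofNat (nat_lit 126218788524576), nat_lit 532507, nat_lit 2⟩,
  ⟨nat_lit 5, Int.ofNat (nat_lit 60285074500296), nat_lit 532507, nat_lit 3⟩,
  ⟨nat_lit 5, Int.ofNat (nat_lit 136847385998592), nat_lit 532507, nat_lit 4⟩,
  ⟨nat_lit 5, Int.ofNat (nat_lit 100299608597548624), nat_lit 561179, nat_lit 0⟩]

def r23 : List RowD := [⟨nat_lit 5, Int.ofNat (nat_lit 612597999029664), nat_lit 561179, nat_lit 1⟩,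
  ⟨nat_lit 5, Int.ofNat (nat_lit 2175615107016364), nat_lit 561179, nat_lit 3⟩,
  ⟨nat_lit 5, Int.ofNat (nat_lit 2658534486424858112), nat_lit 561179, nat_lit 4⟩,
  ⟨nat_lit 5, Int.ofNat (nat_lit 204642818283681344), nat_lit 565275, nat_lit 0⟩,
  ⟨nat_lit 5, Int.ofNat (nat_lit 21579992691068520), nat_lit 565275, nat_lit 1⟩,
  ⟨nat_lit 5, Int.ofNat (nat_lit 4944496837413788), nat_lit 565275, nat_lit 2⟩,
  ⟨nat_lit 5, Int.ofNat (nat_lit 7443059966870284), nat_lit 565275, nat_lit 3⟩,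
  ⟨nat_lit 5, Int.ofNat (nat_lit 132347517597985120), nat_lit 565275, nat_lit 4⟩,
  ⟨nat_lit 5, Int.ofNat (nat_lit 3434620161774944), nat_lit 598043, nat_lit 0⟩,
  ⟨nat_lit 5, Int.ofNat (nat_lit 1260152955557772), nat_lit 598043, nat_lit 1⟩,
  ⟨nat_lit 5, Int.ofNat (nat_lit 3776412635499520), nat_lit 598043, nat_lit 3⟩,
  ⟨nat_lit 5, Int.ofNat (nat_lit 93830568075016), nat_lit 598043, nat_lit 4⟩,
  ⟨nat_lit 5, Int.ofNat (nat_lit 4277537771980476), nat_lit 2101275, nat_lit 0⟩,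
  ⟨nat_lit 5, Int.ofNat (nat_lit 221834080557408), nat_lit 2101275, nat_lit 1⟩,
  ⟨nat_lit 5, Int.ofNat (nat_lit 1000255074519084), nat_lit 2101275, nat_lit 2⟩,
  ⟨nat_lit 5, Int.ofNat (nat_lit 94951920802408), nat_lit 2101275, nat_lit 3⟩,
  ⟨nat_lit 5, Int.ofNat (nat_lit 14806336894744288), nat_lit 2105371, nat_lit 0⟩,
  ⟨nat_lit 5, Int.ofNat (nat_lit 14796737412538032), nat_lit 2105371, nat_lit 1⟩,
  ⟨nat_lit 5, Int.ofNat (nat_lit 4078109351165512), nat_lit 2105371, nat_lit 2⟩,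
  ⟨nat_lit 5, Int.ofNat (nat_lit 75621275785248416), nat_lit 2105371, nat_lit 3⟩,
  ⟨nat_lit 5, Int.ofNat (nat_lit 3169355839065144), nat_lit 2105371, nat_lit 4⟩,
  ⟨nat_lit 5, Int.ofNat (nat_lit 1457860708345191168), nat_lit 2129947, nat_lit 0⟩,
  ⟨nat_lit 5, Int.ofNat (nat_lit 1006028829584524), nat_lit 2129947, nat_lit 1⟩,
  ⟨nat_lit 5, Int.ofNat (nat_lit 295350286676304), nat_lit 2129947, nat_lit 3⟩,
  ⟨nat_lit 5, Int.ofNat (nat_lit 1574556064434178560), nat_lit 2134043, nat_lit 0⟩,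
  ⟨nat_lit 5, Int.ofNat (nat_lit 6111855063405560), nat_lit 2134043, nat_lit 1⟩,
  ⟨nat_lit 5, Int.ofNat (nat_lit 11666665814719392), nat_lit 2134043, nat_lit 2⟩,
  ⟨nat_lit 5, Int.ofNat (nat_lit 15202755402240808), nat_lit 2134043, nat_lit 3⟩,
  ⟨nat_lit 5, Int.ofNat (nat_lit 16444649653258088), nat_lit 2134043, nat_lit 4⟩,
  ⟨nat_lit 5, Int.ofNat (nat_lit 280926961629352128), nat_lit 2138139, nat_lit 0⟩]

def r24 : List RowD := [⟨nat_lit 5, Int.ofNat (nat_lit 170286903020638112), nat_lit 2138139, nat_lit 1⟩,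
  ⟨nat_lit 5, Int.ofNat (nat_lit 310057701231454784), nat_lit 2138139, nat_lit 2⟩,
  ⟨nat_lit 5, Int.ofNat (nat_lit 449704726173815936), nat_lit 2138139, nat_lit 3⟩,
  ⟨nat_lit 5, Int.ofNat (nat_lit 84852370646172240), nat_lit 2138139, nat_lit 4⟩,
  ⟨nat_lit 5, Int.ofNat (nat_lit 1564225021784752), nat_lit 2162715, nat_lit 0⟩,
  ⟨nat_lit 5, Int.ofNat (nat_lit 151378540126480), nat_lit 2162715, nat_lit 1⟩,
  ⟨nat_lit 5, Int.ofNat (nat_lit 8615392793872520), nat_lit 2162715, nat_lit 2⟩,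
  ⟨nat_lit 5, Int.ofNat (nat_lit 287287332081092), nat_lit 2162715, nat_lit 3⟩,
  ⟨nat_lit 5, Int.ofNat (nat_lit 99495629118772), nat_lit 2162715, nat_lit 4⟩,
  ⟨nat_lit 5, Int.ofNat (nat_lit 182340652327843552), nat_lit 2166811, nat_lit 0⟩,
  ⟨nat_lit 5, Int.ofNat (nat_lit 21299938472285856), nat_lit 2166811, nat_lit 1⟩,
  ⟨nat_lit 5, Int.ofNat (nat_lit 90020223231496384), nat_lit 2166811, nat_lit 2⟩,
  ⟨nat_lit 5, Int.ofNat (nat_lit 31145034080385280), nat_lit 2166811, nat_lit 3⟩,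
  ⟨nat_lit 5, Int.ofNat (nat_lit 24126458153107920), nat_lit 2166811, nat_lit 4⟩,
  ⟨nat_lit 5, Int.ofNat (nat_lit 7191610866905596), nat_lit 2170907, nat_lit 0⟩,
  ⟨nat_lit 5, Int.ofNat (nat_lit 5504767222477756), nat_lit 2170907, nat_lit 1⟩,
  ⟨nat_lit 5, Int.ofNat (nat_lit 6164401266861120), nat_lit 2170907, nat_lit 2⟩,
  ⟨nat_lit 5, Int.ofNat (nat_lit 11920915288098788), nat_lit 2170907, nat_lit 3⟩,
  ⟨nat_lit 5, Int.ofNat (nat_lit 3131903170839268), nat_lit 2170907, nat_lit 4⟩,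
  ⟨nat_lit 5, Int.ofNat (nat_lit 12250518294560028), nat_lit 4202523, nat_lit 0⟩,
  ⟨nat_lit 5, Int.ofNat (nat_lit 1678966562434928), nat_lit 4202523, nat_lit 1⟩,
  ⟨nat_lit 5, Int.ofNat (nat_lit 49762249801416), nat_lit 4202523, nat_lit 2⟩,
  ⟨nat_lit 5, Int.ofNat (nat_lit 131927358528412), nat_lit 4202523, nat_lit 3⟩,
  ⟨nat_lit 5, Int.ofNat (nat_lit 71508398978640384), nat_lit 4231195, nat_lit 0⟩,
  ⟨nat_lit 5, Int.ofNat (nat_lit 33255236626108840), nat_lit 4231195, nat_lit 1⟩,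
  ⟨nat_lit 5, Int.ofNat (nat_lit 6798075822312636), nat_lit 4231195, nat_lit 2⟩,
  ⟨nat_lit 5, Int.ofNat (nat_lit 21731139109670788), nat_lit 4231195, nat_lit 3⟩,
  ⟨nat_lit 5, Int.ofNat (nat_lit 7782734510130808), nat_lit 4231195, nat_lit 4⟩,
  ⟨nat_lit 5, Int.ofNat (nat_lit 23541587617255596), nat_lit 4235291, nat_lit 0⟩,
  ⟨nat_lit 5, Int.ofNat (nat_lit 200102156422606272), nat_lit 4235291, nat_lit 1⟩]

def r25 : List RowD := [⟨nat_lit 5, Int.ofNat (nat_lit 7504715674856080), nat_lit 4235291, nat_lit 2⟩,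
  ⟨nat_lit 5, Int.ofNat (nat_lit 5472076409699312), nat_lit 4235291, nat_lit 3⟩,
  ⟨nat_lit 5, Int.ofNat (nat_lit 2280950798105400832), nat_lit 4235291, nat_lit 4⟩,
  ⟨nat_lit 5, Int.ofNat (nat_lit 22727741560843984), nat_lit 4263963, nat_lit 0⟩,
  ⟨nat_lit 5, Int.ofNat (nat_lit 137965001001153328), nat_lit 4263963, nat_lit 1⟩,
  ⟨nat_lit 5, Int.ofNat (nat_lit 35818027743951144), nat_lit 4263963, nat_lit 2⟩,
  ⟨nat_lit 5, Int.ofNat (nat_lit 11862921213712328), nat_lit 4263963, nat_lit 3⟩,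
  ⟨nat_lit 5, Int.ofNat (nat_lit 13330410132897760), nat_lit 4263963, nat_lit 4⟩,
  ⟨nat_lit 5, Int.ofNat (nat_lit 1198287378571756), nat_lit 4268059, nat_lit 0⟩,
  ⟨nat_lit 5, Int.ofNat (nat_lit 3404716481786808), nat_lit 4268059, nat_lit 1⟩,
  ⟨nat_lit 5, Int.ofNat (nat_lit 2754712452730696), nat_lit 4268059, nat_lit 2⟩,
  ⟨nat_lit 5, Int.ofNat (nat_lit 1194271739161360), nat_lit 4268059, nat_lit 3⟩,
  ⟨nat_lit 5, Int.ofNat (nat_lit 92324650990276), nat_lit 4268059, nat_lit 4⟩,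
  ⟨nat_lit 5, Int.ofNat (nat_lit 39793412028013304), nat_lit 18911259, nat_lit 0⟩,
  ⟨nat_lit 5, Int.ofNat (nat_lit 6891892274614672), nat_lit 18911259, nat_lit 1⟩,
  ⟨nat_lit 5, Int.ofNat (nat_lit 7426966922989544), nat_lit 18911259, nat_lit 3⟩,
  ⟨nat_lit 5, Int.ofNat (nat_lit 606399087377378432), nat_lit 18915355, nat_lit 0⟩,
  ⟨nat_lit 5, Int.ofNat (nat_lit 276683558123295680), nat_lit 18915355, nat_lit 1⟩,
  ⟨nat_lit 5, Int.ofNat (nat_lit 291871574382677696), nat_lit 18915355, nat_lit 2⟩,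
  ⟨nat_lit 5, Int.ofNat (nat_lit 1116828989593354240), nat_lit 18915355, nat_lit 3⟩,
  ⟨nat_lit 5, Int.ofNat (nat_lit 621338788224682112), nat_lit 18915355, nat_lit 4⟩,
  ⟨nat_lit 5, Int.ofNat (nat_lit 13100767389082788), nat_lit 18948123, nat_lit 0⟩,
  ⟨nat_lit 5, Int.ofNat (nat_lit 40076680434277776), nat_lit 18948123, nat_lit 1⟩,
  ⟨nat_lit 5, Int.ofNat (nat_lit 15195967828980788), nat_lit 18948123, nat_lit 3⟩,
  ⟨nat_lit 5, Int.ofNat (nat_lit 16801949009065300), nat_lit 18948123, nat_lit 4⟩,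
  ⟨nat_lit 5, Int.ofNat (nat_lit 48314891682509352), nat_lit 21012507, nat_lit 0⟩,
  ⟨nat_lit 5, Int.ofNat (nat_lit 73603595580069712), nat_lit 21012507, nat_lit 1⟩,
  ⟨nat_lit 5, Int.ofNat (nat_lit 13812824601818976), nat_lit 21012507, nat_lit 2⟩,
  ⟨nat_lit 5, Int.ofNat (nat_lit 15469285753296920), nat_lit 21012507, nat_lit 3⟩,
  ⟨nat_lit 5, Int.ofNat (nat_lit 777546937256933120), nat_lit 21041179, nat_lit 0⟩]

def r26 : List RowD := [⟨nat_lit 5, Int.ofNat (nat_lit 876380381365745536), nat_lit 21041179, nat_lit 1⟩,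
  ⟨nat_lit 5, Int.ofNat (nat_lit 895512620392706560), nat_lit 21041179, nat_lit 3⟩,
  ⟨nat_lit 5, Int.ofNat (nat_lit 14068589412905528), nat_lit 21045275, nat_lit 0⟩,
  ⟨nat_lit 5, Int.ofNat (nat_lit 39163335177245880), nat_lit 21045275, nat_lit 1⟩,
  ⟨nat_lit 5, Int.ofNat (nat_lit 89980630667432896), nat_lit 21045275, nat_lit 2⟩,
  ⟨nat_lit 5, Int.ofNat (nat_lit 14450813570137552), nat_lit 21045275, nat_lit 3⟩,
  ⟨nat_lit 5, Int.ofNat (nat_lit 126383323915360656), nat_lit 21045275, nat_lit 4⟩,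
  ⟨nat_lit 5, Int.ofNat (nat_lit 1358325552582204), nat_lit 37822491, nat_lit 0⟩,
  ⟨nat_lit 5, Int.ofNat (nat_lit 739465804726960), nat_lit 37822491, nat_lit 1⟩,
  ⟨nat_lit 5, Int.ofNat (nat_lit 3008600618914724), nat_lit 37822491, nat_lit 3⟩,
  ⟨nat_lit 5, Int.ofNat (nat_lit 12822430426684644), nat_lit 134218267, nat_lit 0⟩,
  ⟨nat_lit 5, Int.ofNat (nat_lit 7720321442079224), nat_lit 134218267, nat_lit 1⟩,
  ⟨nat_lit 5, Int.ofNat (nat_lit 4910641634500376), nat_lit 134218267, nat_lit 3⟩,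
  ⟨nat_lit 5, Int.ofNat (nat_lit 1358435166944072), nat_lit 134218267, nat_lit 4⟩,
  ⟨nat_lit 5, Int.ofNat (nat_lit 1561616824897068288), nat_lit 134218779, nat_lit 0⟩,
  ⟨nat_lit 5, Int.ofNat (nat_lit 532303991703736), nat_lit 134218779, nat_lit 1⟩,
  ⟨nat_lit 5, Int.ofNat (nat_lit 176421049798416), nat_lit 134218779, nat_lit 3⟩,
  ⟨nat_lit 5, Int.ofNat (nat_lit 80552619283340), nat_lit 134218779, nat_lit 4⟩,
  ⟨nat_lit 5, Int.ofNat (nat_lit 3807300659824424), nat_lit 134221851, nat_lit 0⟩,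
  ⟨nat_lit 5, Int.ofNat (nat_lit 622130752353356), nat_lit 134221851, nat_lit 1⟩,
  ⟨nat_lit 5, Int.ofNat (nat_lit 2149149181932672), nat_lit 134221851, nat_lit 2⟩,
  ⟨nat_lit 5, Int.ofNat (nat_lit 489833899642756), nat_lit 134221851, nat_lit 3⟩,
  ⟨nat_lit 5, Int.ofNat (nat_lit 128981351192052), nat_lit 134221851, nat_lit 4⟩,
  ⟨nat_lit 5, Int.ofNat (nat_lit 1029106319660457984), nat_lit 134225947, nat_lit 0⟩,
  ⟨nat_lit 5, Int.ofNat (nat_lit 1687207117283896), nat_lit 134225947, nat_lit 1⟩,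
  ⟨nat_lit 5, Int.ofNat (nat_lit 258927129508476), nat_lit 134225947, nat_lit 2⟩,
  ⟨nat_lit 5, Int.ofNat (nat_lit 193173840981640), nat_lit 134225947, nat_lit 3⟩,
  ⟨nat_lit 5, Int.ofNat (nat_lit 123475467474344), nat_lit 134225947, nat_lit 4⟩,
  ⟨nat_lit 5, Int.ofNat (nat_lit 143780378647247856), nat_lit 134254619, nat_lit 0⟩,
  ⟨nat_lit 5, Int.ofNat (nat_lit 2314678749852880), nat_lit 134254619, nat_lit 1⟩]

def r27 : List RowD := [⟨nat_lit 5, Int.ofNat (nat_lit 10793539045161304), nat_lit 134254619, nat_lit 3⟩,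
  ⟨nat_lit 5, Int.ofNat (nat_lit 1739337191277468), nat_lit 134254619, nat_lit 4⟩,
  ⟨nat_lit 5, Int.ofNat (nat_lit 139064101454762640), nat_lit 134258715, nat_lit 0⟩,
  ⟨nat_lit 5, Int.ofNat (nat_lit 816771055947383296), nat_lit 134258715, nat_lit 1⟩,
  ⟨nat_lit 5, Int.ofNat (nat_lit 25548648396833528), nat_lit 134258715, nat_lit 2⟩,
  ⟨nat_lit 5, Int.ofNat (nat_lit 35196291082087092), nat_lit 134258715, nat_lit 3⟩,
  ⟨nat_lit 5, Int.ofNat (nat_lit 77571576183934512), nat_lit 134258715, nat_lit 4⟩,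
  ⟨nat_lit 5, Int.ofNat (nat_lit 12096980656582344), nat_lit 134291483, nat_lit 0⟩,
  ⟨nat_lit 5, Int.ofNat (nat_lit 26469495725313688), nat_lit 134291483, nat_lit 1⟩,
  ⟨nat_lit 5, Int.ofNat (nat_lit 49039048913407280), nat_lit 134291483, nat_lit 3⟩,
  ⟨nat_lit 5, Int.ofNat (nat_lit 2950278554245281280), nat_lit 134291483, nat_lit 4⟩,
  ⟨nat_lit 5, Int.ofNat (nat_lit 1445221027001682176), nat_lit 134483995, nat_lit 0⟩,
  ⟨nat_lit 5, Int.ofNat (nat_lit 3804002777661224960), nat_lit 134483995, nat_lit 1⟩,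
  ⟨nat_lit 5, Int.ofNat (nat_lit 2291519586139550976), nat_lit 134483995, nat_lit 2⟩,
  ⟨nat_lit 5, Int.ofNat (nat_lit 716976067348146816), nat_lit 134483995, nat_lit 3⟩,
  ⟨nat_lit 5, Int.ofNat (nat_lit 463306076429025216), nat_lit 134483995, nat_lit 4⟩,
  ⟨nat_lit 5, Int.ofNat (nat_lit 25421369712194032), nat_lit 134488091, nat_lit 0⟩,
  ⟨nat_lit 5, Int.ofNat (nat_lit 1125801187533262080), nat_lit 134488091, nat_lit 1⟩,
  ⟨nat_lit 5, Int.ofNat (nat_lit 6733491273936068), nat_lit 134488091, nat_lit 2⟩,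
  ⟨nat_lit 5, Int.ofNat (nat_lit 5824279873894216), nat_lit 134488091, nat_lit 3⟩,
  ⟨nat_lit 5, Int.ofNat (nat_lit 31258809651774184), nat_lit 134488091, nat_lit 4⟩,
  ⟨nat_lit 5, Int.ofNat (nat_lit 224044450258646912), nat_lit 134516763, nat_lit 0⟩,
  ⟨nat_lit 5, Int.ofNat (nat_lit 74440878284730656), nat_lit 134516763, nat_lit 1⟩,
  ⟨nat_lit 5, Int.ofNat (nat_lit 17237181954754445312), nat_lit 134516763, nat_lit 3⟩,
  ⟨nat_lit 5, Int.ofNat (nat_lit 4735846301776480256), nat_lit 134516763, nat_lit 4⟩,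
  ⟨nat_lit 5, Int.ofNat (nat_lit 421442201080457536), nat_lit 134520859, nat_lit 0⟩,
  ⟨nat_lit 5, Int.ofNat (nat_lit 736716363442210688), nat_lit 134520859, nat_lit 1⟩,
  ⟨nat_lit 5, Int.ofNat (nat_lit 952615443693009920), nat_lit 134520859, nat_lit 2⟩,
  ⟨nat_lit 5, Int.ofNat (nat_lit 1855695165806910208), nat_lit 134520859, nat_lit 3⟩,
  ⟨nat_lit 5, Int.ofNat (nat_lit 7570361245064736768), nat_lit 134520859, nat_lit 4⟩]

def r28 : List RowD := [⟨nat_lit 5, Int.ofNat (nat_lit 19694414417293512), nat_lit 134553627, nat_lit 0⟩,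
  ⟨nat_lit 5, Int.ofNat (nat_lit 12280157421192148), nat_lit 134553627, nat_lit 1⟩,
  ⟨nat_lit 5, Int.ofNat (nat_lit 41186524629962864), nat_lit 134553627, nat_lit 3⟩,
  ⟨nat_lit 5, Int.ofNat (nat_lit 19200671037197208), nat_lit 134553627, nat_lit 4⟩,
  ⟨nat_lit 5, Int.ofNat (nat_lit 116860624460696736), nat_lit 134746139, nat_lit 0⟩,
  ⟨nat_lit 5, Int.ofNat (nat_lit 797538348304696), nat_lit 134746139, nat_lit 1⟩,
  ⟨nat_lit 5, Int.ofNat (nat_lit 5041535804789838848), nat_lit 134746139, nat_lit 2⟩,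
  ⟨nat_lit 5, Int.ofNat (nat_lit 2504483672443712), nat_lit 134746139, nat_lit 3⟩,
  ⟨nat_lit 5, Int.ofNat (nat_lit 815787804322352), nat_lit 134746139, nat_lit 4⟩,
  ⟨nat_lit 5, Int.ofNat (nat_lit 297027817570332416), nat_lit 134750235, nat_lit 0⟩,
  ⟨nat_lit 5, Int.ofNat (nat_lit 37475947440772920), nat_lit 134750235, nat_lit 1⟩,
  ⟨nat_lit 5, Int.ofNat (nat_lit 1256370968678102784), nat_lit 134750235, nat_lit 2⟩,
  ⟨nat_lit 5, Int.ofNat (nat_lit 8679133577297768), nat_lit 134750235, nat_lit 3⟩,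
  ⟨nat_lit 5, Int.ofNat (nat_lit 6197259029184752), nat_lit 134750235, nat_lit 4⟩,
  ⟨nat_lit 5, Int.ofNat (nat_lit 115159993619827424), nat_lit 134778907, nat_lit 0⟩,
  ⟨nat_lit 5, Int.ofNat (nat_lit 1426522608358208), nat_lit 134778907, nat_lit 1⟩,
  ⟨nat_lit 5, Int.ofNat (nat_lit 2714698072246184), nat_lit 134778907, nat_lit 3⟩,
  ⟨nat_lit 5, Int.ofNat (nat_lit 1503035231449532), nat_lit 134778907, nat_lit 4⟩,
  ⟨nat_lit 5, Int.ofNat (nat_lit 99523704816055248), nat_lit 134783003, nat_lit 0⟩,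
  ⟨nat_lit 5, Int.ofNat (nat_lit 63642754968610408), nat_lit 134783003, nat_lit 1⟩,
  ⟨nat_lit 5, Int.ofNat (nat_lit 15467875333392840), nat_lit 134783003, nat_lit 2⟩,
  ⟨nat_lit 5, Int.ofNat (nat_lit 15656959608465568), nat_lit 134783003, nat_lit 3⟩,
  ⟨nat_lit 5, Int.ofNat (nat_lit 15522274742852264), nat_lit 134783003, nat_lit 4⟩,
  ⟨nat_lit 5, Int.ofNat (nat_lit 44739157624434672), nat_lit 134815771, nat_lit 0⟩,
  ⟨nat_lit 5, Int.ofNat (nat_lit 15351008482392376), nat_lit 134815771, nat_lit 1⟩,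
  ⟨nat_lit 5, Int.ofNat (nat_lit 222750953060624512), nat_lit 134815771, nat_lit 3⟩,
  ⟨nat_lit 5, Int.ofNat (nat_lit 2850341077922449920), nat_lit 134815771, nat_lit 4⟩,
  ⟨nat_lit 5, Int.ofNat (nat_lit 315463749316008128), nat_lit 136347675, nat_lit 0⟩,
  ⟨nat_lit 5, Int.ofNat (nat_lit 100075753066647168), nat_lit 136347675, nat_lit 1⟩,
  ⟨nat_lit 5, Int.ofNat (nat_lit 247730537822065536), nat_lit 136347675, nat_lit 3⟩]

def r29 : List RowD := [⟨nat_lit 5, Int.ofNat (nat_lit 325338534290443776), nat_lit 136380443, nat_lit 0⟩,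
  ⟨nat_lit 5, Int.ofNat (nat_lit 2024313578241481728), nat_lit 136380443, nat_lit 1⟩,
  ⟨nat_lit 5, Int.ofNat (nat_lit 65005594338750304), nat_lit 136380443, nat_lit 2⟩,
  ⟨nat_lit 5, Int.ofNat (nat_lit 420079876812607680), nat_lit 136380443, nat_lit 3⟩,
  ⟨nat_lit 5, Int.ofNat (nat_lit 32841500627792848), nat_lit 136380443, nat_lit 4⟩,
  ⟨nat_lit 5, Int.ofNat (nat_lit 14655697090754633728), nat_lit 138477595, nat_lit 0⟩,
  ⟨nat_lit 5, Int.ofNat (nat_lit 5170051026095220), nat_lit 138477595, nat_lit 1⟩,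
  ⟨nat_lit 5, Int.ofNat (nat_lit 587852330981140), nat_lit 138477595, nat_lit 3⟩,
  ⟨nat_lit 5, Int.ofNat (nat_lit 1768483237255313664), nat_lit 268435995, nat_lit 0⟩,
  ⟨nat_lit 5, Int.ofNat (nat_lit 2625347734598148), nat_lit 268435995, nat_lit 1⟩,
  ⟨nat_lit 5, Int.ofNat (nat_lit 6054496454445908992), nat_lit 268435995, nat_lit 3⟩,
  ⟨nat_lit 5, Int.ofNat (nat_lit 1811597987819253760), nat_lit 268435995, nat_lit 4⟩,
  ⟨nat_lit 5, Int.ofNat (nat_lit 34758425561543996), nat_lit 268436507, nat_lit 0⟩,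
  ⟨nat_lit 5, Int.ofNat (nat_lit 100883099278624), nat_lit 268436507, nat_lit 1⟩,
  ⟨nat_lit 5, Int.ofNat (nat_lit 7434796262228956552), nat_lit 268436507, nat_lit 3⟩,
  ⟨nat_lit 5, Int.ofNat (nat_lit 59029403158976), nat_lit 268436507, nat_lit 4⟩,
  ⟨nat_lit 5, Int.ofNat (nat_lit 13123294895639904), nat_lit 268472347, nat_lit 0⟩,
  ⟨nat_lit 5, Int.ofNat (nat_lit 1697088388259116), nat_lit 268472347, nat_lit 1⟩,
  ⟨nat_lit 5, Int.ofNat (nat_lit 815942734589226240), nat_lit 268472347, nat_lit 3⟩,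
  ⟨nat_lit 5, Int.ofNat (nat_lit 682726494898367488), nat_lit 268472347, nat_lit 4⟩,
  ⟨nat_lit 5, Int.ofNat (nat_lit 38947684643488464), nat_lit 268476443, nat_lit 0⟩,
  ⟨nat_lit 5, Int.ofNat (nat_lit 22733546448551852), nat_lit 268476443, nat_lit 1⟩,
  ⟨nat_lit 5, Int.ofNat (nat_lit 11696924848558920), nat_lit 268476443, nat_lit 2⟩,
  ⟨nat_lit 5, Int.ofNat (nat_lit 199689039576307168), nat_lit 268476443, nat_lit 3⟩,
  ⟨nat_lit 5, Int.ofNat (nat_lit 19036894832435940), nat_lit 268476443, nat_lit 4⟩,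
  ⟨nat_lit 5, Int.ofNat (nat_lit 3336412862631864), nat_lit 268509211, nat_lit 0⟩,
  ⟨nat_lit 5, Int.ofNat (nat_lit 1192345555253644), nat_lit 268509211, nat_lit 1⟩,
  ⟨nat_lit 5, Int.ofNat (nat_lit 2915852879117103232), nat_lit 268509211, nat_lit 3⟩,
  ⟨nat_lit 5, Int.ofNat (nat_lit 89775278416560), nat_lit 268509211, nat_lit 4⟩,
  ⟨nat_lit 5, Int.ofNat (nat_lit 99507240912512592), nat_lit 268701723, nat_lit 0⟩]

def r30 : List RowD := [⟨nat_lit 5, Int.ofNat (nat_lit 124542249239954768), nat_lit 268701723, nat_lit 1⟩,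
  ⟨nat_lit 5, Int.ofNat (nat_lit 191378255025606656), nat_lit 268701723, nat_lit 2⟩,
  ⟨nat_lit 5, Int.ofNat (nat_lit 4518781762323836928), nat_lit 268701723, nat_lit 3⟩,
  ⟨nat_lit 5, Int.ofNat (nat_lit 92320329115034016), nat_lit 268701723, nat_lit 4⟩,
  ⟨nat_lit 5, Int.ofNat (nat_lit 7151993179659462656), nat_lit 268705819, nat_lit 0⟩,
  ⟨nat_lit 5, Int.ofNat (nat_lit 13370482417172072), nat_lit 268705819, nat_lit 1⟩,
  ⟨nat_lit 5, Int.ofNat (nat_lit 11464199738972212), nat_lit 268705819, nat_lit 2⟩,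
  ⟨nat_lit 5, Int.ofNat (nat_lit 592415516779068416), nat_lit 268705819, nat_lit 3⟩,
  ⟨nat_lit 5, Int.ofNat (nat_lit 9256247653576420), nat_lit 268705819, nat_lit 4⟩,
  ⟨nat_lit 5, Int.ofNat (nat_lit 254450312965061696), nat_lit 268734491, nat_lit 0⟩,
  ⟨nat_lit 5, Int.ofNat (nat_lit 78895636920243424), nat_lit 268734491, nat_lit 1⟩,
  ⟨nat_lit 5, Int.ofNat (nat_lit 8529406915105345536), nat_lit 268734491, nat_lit 3⟩,
  ⟨nat_lit 5, Int.ofNat (nat_lit 7469564907756830720), nat_lit 268734491, nat_lit 4⟩,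
  ⟨nat_lit 5, Int.ofNat (nat_lit 547112075754930624), nat_lit 268738587, nat_lit 0⟩,
  ⟨nat_lit 5, Int.ofNat (nat_lit 862589995443464192), nat_lit 268738587, nat_lit 1⟩,
  ⟨nat_lit 5, Int.ofNat (nat_lit 573700614784861440), nat_lit 268738587, nat_lit 2⟩,
  ⟨nat_lit 5, Int.ofNat (nat_lit 2552335686281150464), nat_lit 268738587, nat_lit 3⟩,
  ⟨nat_lit 5, Int.ofNat (nat_lit 2752007844900684800), nat_lit 268738587, nat_lit 4⟩,
  ⟨nat_lit 5, Int.ofNat (nat_lit 309235645518796160), nat_lit 268771355, nat_lit 0⟩,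
  ⟨nat_lit 5, Int.ofNat (nat_lit 14763293397746152), nat_lit 268771355, nat_lit 1⟩,
  ⟨nat_lit 5, Int.ofNat (nat_lit 64823826358258632), nat_lit 268771355, nat_lit 3⟩,
  ⟨nat_lit 5, Int.ofNat (nat_lit 4372394328783874560), nat_lit 268771355, nat_lit 4⟩,
  ⟨nat_lit 5, Int.ofNat (nat_lit 149542821406823456), nat_lit 268963867, nat_lit 0⟩,
  ⟨nat_lit 5, Int.ofNat (nat_lit 5248056054746796), nat_lit 268963867, nat_lit 1⟩,
  ⟨nat_lit 5, Int.ofNat (nat_lit 99810867395299072), nat_lit 268963867, nat_lit 2⟩,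
  ⟨nat_lit 5, Int.ofNat (nat_lit 7638681461218472), nat_lit 268963867, nat_lit 3⟩,
  ⟨nat_lit 5, Int.ofNat (nat_lit 30532292707647600), nat_lit 268963867, nat_lit 4⟩,
  ⟨nat_lit 5, Int.ofNat (nat_lit 1631563430932800), nat_lit 268967963, nat_lit 0⟩,
  ⟨nat_lit 5, Int.ofNat (nat_lit 848177070913060), nat_lit 268967963, nat_lit 1⟩,
  ⟨nat_lit 5, Int.ofNat (nat_lit 70181026369384), nat_lit 268967963, nat_lit 2⟩]

def r31 : List RowD := [⟨nat_lit 5, Int.ofNat (nat_lit 1614568691887096), nat_lit 268967963, nat_lit 3⟩,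
  ⟨nat_lit 5, Int.ofNat (nat_lit 849310119905756), nat_lit 268967963, nat_lit 4⟩,
  ⟨nat_lit 5, Int.ofNat (nat_lit 462289686941094144), nat_lit 268996635, nat_lit 0⟩,
  ⟨nat_lit 5, Int.ofNat (nat_lit 16822122597596136), nat_lit 268996635, nat_lit 1⟩,
  ⟨nat_lit 5, Int.ofNat (nat_lit 16565416828262632), nat_lit 268996635, nat_lit 3⟩,
  ⟨nat_lit 5, Int.ofNat (nat_lit 882956449713724800), nat_lit 268996635, nat_lit 4⟩,
  ⟨nat_lit 5, Int.ofNat (nat_lit 31638933511237536), nat_lit 269000731, nat_lit 0⟩,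
  ⟨nat_lit 5, Int.ofNat (nat_lit 13210852726277888), nat_lit 269000731, nat_lit 1⟩,
  ⟨nat_lit 5, Int.ofNat (nat_lit 49643456940121528), nat_lit 269000731, nat_lit 2⟩,
  ⟨nat_lit 5, Int.ofNat (nat_lit 92673200140195872), nat_lit 269000731, nat_lit 3⟩,
  ⟨nat_lit 5, Int.ofNat (nat_lit 13713833830309800), nat_lit 269000731, nat_lit 4⟩,
  ⟨nat_lit 5, Int.ofNat (nat_lit 854501876799004), nat_lit 269033499, nat_lit 0⟩,
  ⟨nat_lit 5, Int.ofNat (nat_lit 1438526493203472), nat_lit 269033499, nat_lit 1⟩,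
  ⟨nat_lit 5, Int.ofNat (nat_lit 1342918397542512), nat_lit 269033499, nat_lit 3⟩,
  ⟨nat_lit 5, Int.ofNat (nat_lit 3658808326002928), nat_lit 269033499, nat_lit 4⟩,
  ⟨nat_lit 5, Int.ofNat (nat_lit 8021991709806832), nat_lit 270565403, nat_lit 0⟩,
  ⟨nat_lit 5, Int.ofNat (nat_lit 2364777620027915776), nat_lit 270565403, nat_lit 1⟩,
  ⟨nat_lit 5, Int.ofNat (nat_lit 12921680039668664), nat_lit 270565403, nat_lit 3⟩,
  ⟨nat_lit 5, Int.ofNat (nat_lit 6853521536410448), nat_lit 270598171, nat_lit 0⟩,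
  ⟨nat_lit 5, Int.ofNat (nat_lit 750461137519872), nat_lit 270598171, nat_lit 1⟩,
  ⟨nat_lit 5, Int.ofNat (nat_lit 1446607031075663872), nat_lit 270598171, nat_lit 2⟩,
  ⟨nat_lit 5, Int.ofNat (nat_lit 5951859480297033728), nat_lit 270598171, nat_lit 3⟩,
  ⟨nat_lit 5, Int.ofNat (nat_lit 808265600825920), nat_lit 270598171, nat_lit 4⟩,
  ⟨nat_lit 5, Int.ofNat (nat_lit 1715953126393336), nat_lit 272695323, nat_lit 0⟩,
  ⟨nat_lit 5, Int.ofNat (nat_lit 1936206709880092), nat_lit 272695323, nat_lit 1⟩,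
  ⟨nat_lit 5, Int.ofNat (nat_lit 2739094594375568), nat_lit 272695323, nat_lit 3⟩,
  ⟨nat_lit 5, Int.ofNat (nat_lit 1618775171185244), nat_lit 360459, nat_lit 0⟩,
  ⟨nat_lit 5, Int.ofNat (nat_lit 11001153362205992), nat_lit 360459, nat_lit 1⟩,
  ⟨nat_lit 5, Int.ofNat (nat_lit 1454975007010576), nat_lit 360459, nat_lit 2⟩,
  ⟨nat_lit 5, Int.ofNat (nat_lit 3707802241358292), nat_lit 360459, nat_lit 3⟩]

def r32 : List RowD := [⟨nat_lit 5, Int.ofNat (nat_lit 584766018929040), nat_lit 360459, nat_lit 4⟩,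
  ⟨nat_lit 5, Int.ofNat (nat_lit 15602075747395776), nat_lit 360467, nat_lit 0⟩,
  ⟨nat_lit 5, Int.ofNat (nat_lit 2320118254462291456), nat_lit 360467, nat_lit 1⟩,
  ⟨nat_lit 5, Int.ofNat (nat_lit 13046933461863344), nat_lit 360467, nat_lit 2⟩,
  ⟨nat_lit 5, Int.ofNat (nat_lit 4021120597844696), nat_lit 360467, nat_lit 3⟩,
  ⟨nat_lit 5, Int.ofNat (nat_lit 4275658100061052), nat_lit 360467, nat_lit 4⟩,
  ⟨nat_lit 5, Int.ofNat (nat_lit 1109315577224074496), nat_lit 360515, nat_lit 0⟩,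
  ⟨nat_lit 5, Int.ofNat (nat_lit 16029872749438732), nat_lit 360515, nat_lit 1⟩,
  ⟨nat_lit 5, Int.ofNat (nat_lit 1470129778330222336), nat_lit 360515, nat_lit 2⟩,
  ⟨nat_lit 5, Int.ofNat (nat_lit 12805565482586968), nat_lit 360515, nat_lit 3⟩,
  ⟨nat_lit 5, Int.ofNat (nat_lit 5737012063463428), nat_lit 360515, nat_lit 4⟩,
  ⟨nat_lit 5, Int.ofNat (nat_lit 151731791874212), nat_lit 360579, nat_lit 0⟩,
  ⟨nat_lit 5, Int.ofNat (nat_lit 1249030694042836), nat_lit 360579, nat_lit 1⟩,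
  ⟨nat_lit 5, Int.ofNat (nat_lit 380226250825014208), nat_lit 360579, nat_lit 2⟩,
  ⟨nat_lit 5, Int.ofNat (nat_lit 202066621757924), nat_lit 360579, nat_lit 3⟩,
  ⟨nat_lit 5, Int.ofNat (nat_lit 101308856118380), nat_lit 360579, nat_lit 4⟩,
  ⟨nat_lit 5, Int.ofNat (nat_lit 76450593940040544), nat_lit 361027, nat_lit 0⟩,
  ⟨nat_lit 5, Int.ofNat (nat_lit 242275219579400960), nat_lit 361027, nat_lit 1⟩,
  ⟨nat_lit 5, Int.ofNat (nat_lit 1034765954537904000), nat_lit 361027, nat_lit 2⟩,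
  ⟨nat_lit 5, Int.ofNat (nat_lit 213744668777575296), nat_lit 361027, nat_lit 3⟩,
  ⟨nat_lit 5, Int.ofNat (nat_lit 1613673538157364736), nat_lit 361027, nat_lit 4⟩,
  ⟨nat_lit 5, Int.ofNat (nat_lit 15367325022011744), nat_lit 361091, nat_lit 0⟩,
  ⟨nat_lit 5, Int.ofNat (nat_lit 110839422993474320), nat_lit 361091, nat_lit 1⟩,
  ⟨nat_lit 5, Int.ofNat (nat_lit 55431534343595560), nat_lit 361091, nat_lit 2⟩,
  ⟨nat_lit 5, Int.ofNat (nat_lit 19231615248600432), nat_lit 361091, nat_lit 3⟩,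
  ⟨nat_lit 5, Int.ofNat (nat_lit 20508647716788072), nat_lit 361091, nat_lit 4⟩,
  ⟨nat_lit 5, Int.ofNat (nat_lit 154278441059084704), nat_lit 361539, nat_lit 0⟩,
  ⟨nat_lit 5, Int.ofNat (nat_lit 146575826125338016), nat_lit 361539, nat_lit 1⟩,
  ⟨nat_lit 5, Int.ofNat (nat_lit 2548798438214528000), nat_lit 361539, nat_lit 2⟩,
  ⟨nat_lit 5, Int.ofNat (nat_lit 158760434000872736), nat_lit 361539, nat_lit 3⟩]

def r33 : List RowD := [⟨nat_lit 5, Int.ofNat (nat_lit 69782970964203568), nat_lit 361539, nat_lit 4⟩,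
  ⟨nat_lit 5, Int.ofNat (nat_lit 5771923206032516), nat_lit 361603, nat_lit 0⟩,
  ⟨nat_lit 5, Int.ofNat (nat_lit 7287542412044024), nat_lit 361603, nat_lit 1⟩,
  ⟨nat_lit 5, Int.ofNat (nat_lit 6071776632228376), nat_lit 361603, nat_lit 2⟩,
  ⟨nat_lit 5, Int.ofNat (nat_lit 8451565468489724), nat_lit 361603, nat_lit 3⟩,
  ⟨nat_lit 5, Int.ofNat (nat_lit 3669997024279280), nat_lit 361603, nat_lit 4⟩,
  ⟨nat_lit 5, Int.ofNat (nat_lit 3896031563395832320), nat_lit 622603, nat_lit 0⟩,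
  ⟨nat_lit 5, Int.ofNat (nat_lit 1641911854305328), nat_lit 622603, nat_lit 1⟩,
  ⟨nat_lit 5, Int.ofNat (nat_lit 5018790711285105664), nat_lit 622603, nat_lit 2⟩,
  ⟨nat_lit 5, Int.ofNat (nat_lit 1922291568035576), nat_lit 622603, nat_lit 3⟩,
  ⟨nat_lit 5, Int.ofNat (nat_lit 1914885944233528), nat_lit 622603, nat_lit 4⟩,
  ⟨nat_lit 5, Int.ofNat (nat_lit 1232708956729632), nat_lit 622611, nat_lit 0⟩,
  ⟨nat_lit 5, Int.ofNat (nat_lit 95436156198404), nat_lit 622611, nat_lit 1⟩,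
  ⟨nat_lit 5, Int.ofNat (nat_lit 5784783136209504), nat_lit 622611, nat_lit 2⟩,
  ⟨nat_lit 5, Int.ofNat (nat_lit 44860297161248), nat_lit 622611, nat_lit 3⟩,
  ⟨nat_lit 5, Int.ofNat (nat_lit 105109927791056), nat_lit 622611, nat_lit 4⟩,
  ⟨nat_lit 5, Int.ofNat (nat_lit 310836008852760576), nat_lit 623171, nat_lit 0⟩,
  ⟨nat_lit 5, Int.ofNat (nat_lit 30968232616269908), nat_lit 623171, nat_lit 1⟩,
  ⟨nat_lit 5, Int.ofNat (nat_lit 2495273078292958720), nat_lit 623171, nat_lit 2⟩,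
  ⟨nat_lit 5, Int.ofNat (nat_lit 47499151830306232), nat_lit 623171, nat_lit 3⟩,
  ⟨nat_lit 5, Int.ofNat (nat_lit 70936480492657376), nat_lit 623171, nat_lit 4⟩,
  ⟨nat_lit 5, Int.ofNat (nat_lit 142074086542618304), nat_lit 623235, nat_lit 0⟩,
  ⟨nat_lit 5, Int.ofNat (nat_lit 24023344158594828), nat_lit 623235, nat_lit 1⟩,
  ⟨nat_lit 5, Int.ofNat (nat_lit 67059250061352000), nat_lit 623235, nat_lit 2⟩,
  ⟨nat_lit 5, Int.ofNat (nat_lit 11231274464146328), nat_lit 623235, nat_lit 3⟩,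
  ⟨nat_lit 5, Int.ofNat (nat_lit 15344788476610968), nat_lit 623235, nat_lit 4⟩,
  ⟨nat_lit 5, Int.ofNat (nat_lit 111499927249342816), nat_lit 623683, nat_lit 0⟩,
  ⟨nat_lit 5, Int.ofNat (nat_lit 4707342120504612), nat_lit 623683, nat_lit 1⟩,
  ⟨nat_lit 5, Int.ofNat (nat_lit 6619616627284108), nat_lit 623683, nat_lit 2⟩,
  ⟨nat_lit 5, Int.ofNat (nat_lit 20209652134100848), nat_lit 623683, nat_lit 3⟩]

def r34 : List RowD := [⟨nat_lit 5, Int.ofNat (nat_lit 632283765883973248), nat_lit 623683, nat_lit 4⟩,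
  ⟨nat_lit 5, Int.ofNat (nat_lit 3348927546955320), nat_lit 623747, nat_lit 0⟩,
  ⟨nat_lit 5, Int.ofNat (nat_lit 1183227084092596), nat_lit 623747, nat_lit 1⟩,
  ⟨nat_lit 5, Int.ofNat (nat_lit 2842042379044352), nat_lit 623747, nat_lit 2⟩,
  ⟨nat_lit 5, Int.ofNat (nat_lit 1164866801409780), nat_lit 623747, nat_lit 3⟩,
  ⟨nat_lit 5, Int.ofNat (nat_lit 92337760056704), nat_lit 623747, nat_lit 4⟩,
  ⟨nat_lit 5, Int.ofNat (nat_lit 62691494856059224), nat_lit 17137731, nat_lit 0⟩,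
  ⟨nat_lit 5, Int.ofNat (nat_lit 29605350598460112), nat_lit 17137731, nat_lit 1⟩,
  ⟨nat_lit 5, Int.ofNat (nat_lit 15711543607357744), nat_lit 17137731, nat_lit 2⟩,
  ⟨nat_lit 5, Int.ofNat (nat_lit 33602230248674976), nat_lit 17137731, nat_lit 3⟩,
  ⟨nat_lit 5, Int.ofNat (nat_lit 436337562407858624), nat_lit 17137731, nat_lit 4⟩,
  ⟨nat_lit 5, Int.ofNat (nat_lit 5990556729131568), nat_lit 17137795, nat_lit 0⟩,
  ⟨nat_lit 5, Int.ofNat (nat_lit 82938943131962688), nat_lit 17137795, nat_lit 1⟩,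
  ⟨nat_lit 5, Int.ofNat (nat_lit 21527702206407348), nat_lit 17137795, nat_lit 2⟩,
  ⟨nat_lit 5, Int.ofNat (nat_lit 5604119241103840), nat_lit 17137795, nat_lit 3⟩,
  ⟨nat_lit 5, Int.ofNat (nat_lit 30012471131572532), nat_lit 17137795, nat_lit 4⟩,
  ⟨nat_lit 5, Int.ofNat (nat_lit 124387341321357664), nat_lit 17138243, nat_lit 0⟩,
  ⟨nat_lit 5, Int.ofNat (nat_lit 178875425573894368), nat_lit 17138243, nat_lit 1⟩,
  ⟨nat_lit 5, Int.ofNat (nat_lit 2876818965536398848), nat_lit 17138243, nat_lit 4⟩,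
  ⟨nat_lit 5, Int.ofNat (nat_lit 311302395286004480), nat_lit 17138307, nat_lit 0⟩,
  ⟨nat_lit 5, Int.ofNat (nat_lit 528015287916563520), nat_lit 17138307, nat_lit 1⟩,
  ⟨nat_lit 5, Int.ofNat (nat_lit 304012974473997440), nat_lit 17138307, nat_lit 2⟩,
  ⟨nat_lit 5, Int.ofNat (nat_lit 1169764491508839424), nat_lit 17138307, nat_lit 3⟩,
  ⟨nat_lit 5, Int.ofNat (nat_lit 2672579458063433728), nat_lit 17138307, nat_lit 4⟩,
  ⟨nat_lit 5, Int.ofNat (nat_lit 24667107321682056), nat_lit 17138819, nat_lit 0⟩,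
  ⟨nat_lit 5, Int.ofNat (nat_lit 11515809429582300), nat_lit 17138819, nat_lit 1⟩,
  ⟨nat_lit 5, Int.ofNat (nat_lit 17618337793469152), nat_lit 17138819, nat_lit 4⟩,
  ⟨nat_lit 5, Int.ofNat (nat_lit 3469592050699028992), nat_lit 17141763, nat_lit 0⟩,
  ⟨nat_lit 5, Int.ofNat (nat_lit 19425874229714148), nat_lit 17141763, nat_lit 1⟩,
  ⟨nat_lit 5, Int.ofNat (nat_lit 800898690615282432), nat_lit 17141763, nat_lit 4⟩]

def r35 : List RowD := [⟨nat_lit 5, Int.ofNat (nat_lit 2588853120249604096), nat_lit 17145859, nat_lit 0⟩,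
  ⟨nat_lit 5, Int.ofNat (nat_lit 266054685170302528), nat_lit 17145859, nat_lit 1⟩,
  ⟨nat_lit 5, Int.ofNat (nat_lit 12569399097738880), nat_lit 17145859, nat_lit 4⟩,
  ⟨nat_lit 5, Int.ofNat (nat_lit 626703139174949376), nat_lit 17399875, nat_lit 0⟩,
  ⟨nat_lit 5, Int.ofNat (nat_lit 1021660931198096), nat_lit 17399875, nat_lit 1⟩,
  ⟨nat_lit 5, Int.ofNat (nat_lit 1691084753592332), nat_lit 17399875, nat_lit 2⟩,
  ⟨nat_lit 5, Int.ofNat (nat_lit 1871581982155084), nat_lit 17399875, nat_lit 3⟩,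
  ⟨nat_lit 5, Int.ofNat (nat_lit 1071769394359376), nat_lit 17399875, nat_lit 4⟩,
  ⟨nat_lit 5, Int.ofNat (nat_lit 70982444444381640), nat_lit 17399939, nat_lit 0⟩,
  ⟨nat_lit 5, Int.ofNat (nat_lit 12131425163128800), nat_lit 17399939, nat_lit 1⟩,
  ⟨nat_lit 5, Int.ofNat (nat_lit 793617346610583936), nat_lit 17399939, nat_lit 2⟩,
  ⟨nat_lit 5, Int.ofNat (nat_lit 10092109071571748), nat_lit 17399939, nat_lit 3⟩,
  ⟨nat_lit 5, Int.ofNat (nat_lit 9996019808195400), nat_lit 17399939, nat_lit 4⟩,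
  ⟨nat_lit 5, Int.ofNat (nat_lit 460984029784712128), nat_lit 17400323, nat_lit 0⟩,
  ⟨nat_lit 5, Int.ofNat (nat_lit 84172801592591312), nat_lit 17400323, nat_lit 1⟩,
  ⟨nat_lit 5, Int.ofNat (nat_lit 192816313445700800), nat_lit 17400323, nat_lit 2⟩,
  ⟨nat_lit 5, Int.ofNat (nat_lit 29387116066160864), nat_lit 17400323, nat_lit 3⟩,
  ⟨nat_lit 5, Int.ofNat (nat_lit 39085524683021608), nat_lit 17400323, nat_lit 4⟩,
  ⟨nat_lit 5, Int.ofNat (nat_lit 9001163842476401664), nat_lit 17400387, nat_lit 0⟩,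
  ⟨nat_lit 5, Int.ofNat (nat_lit 57658022935971440), nat_lit 17400387, nat_lit 1⟩,
  ⟨nat_lit 5, Int.ofNat (nat_lit 79812653477661728), nat_lit 17400387, nat_lit 2⟩,
  ⟨nat_lit 5, Int.ofNat (nat_lit 62067222708073936), nat_lit 17400387, nat_lit 3⟩,
  ⟨nat_lit 5, Int.ofNat (nat_lit 59055482647353040), nat_lit 17400387, nat_lit 4⟩,
  ⟨nat_lit 5, Int.ofNat (nat_lit 1045204281047697024), nat_lit 17400451, nat_lit 0⟩,
  ⟨nat_lit 5, Int.ofNat (nat_lit 656492490598611328), nat_lit 17400451, nat_lit 1⟩,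
  ⟨nat_lit 5, Int.ofNat (nat_lit 946919203823283072), nat_lit 17400451, nat_lit 2⟩,
  ⟨nat_lit 5, Int.ofNat (nat_lit 1203104493494099712), nat_lit 17400451, nat_lit 3⟩,
  ⟨nat_lit 5, Int.ofNat (nat_lit 754900822343182976), nat_lit 17400451, nat_lit 4⟩,
  ⟨nat_lit 5, Int.ofNat (nat_lit 787056102111139712), nat_lit 17400835, nat_lit 0⟩,
  ⟨nat_lit 5, Int.ofNat (nat_lit 120298624051505808), nat_lit 17400835, nat_lit 1⟩]

def r36 : List RowD := [⟨nat_lit 5, Int.ofNat (nat_lit 7248646608375192), nat_lit 17400835, nat_lit 2⟩,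
  ⟨nat_lit 5, Int.ofNat (nat_lit 31479219777485292), nat_lit 17400835, nat_lit 3⟩,
  ⟨nat_lit 5, Int.ofNat (nat_lit 5925649201285024), nat_lit 17400835, nat_lit 4⟩,
  ⟨nat_lit 5, Int.ofNat (nat_lit 92306372275530576), nat_lit 17400899, nat_lit 0⟩,
  ⟨nat_lit 5, Int.ofNat (nat_lit 13502668377738840), nat_lit 17400899, nat_lit 1⟩,
  ⟨nat_lit 5, Int.ofNat (nat_lit 13328487404664360), nat_lit 17400899, nat_lit 2⟩,
  ⟨nat_lit 5, Int.ofNat (nat_lit 54832249667148720), nat_lit 17400899, nat_lit 3⟩,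
  ⟨nat_lit 5, Int.ofNat (nat_lit 13777462984353072), nat_lit 17400899, nat_lit 4⟩,
  ⟨nat_lit 5, Int.ofNat (nat_lit 40071682029134984), nat_lit 17400963, nat_lit 0⟩,
  ⟨nat_lit 5, Int.ofNat (nat_lit 13949330895993640), nat_lit 17400963, nat_lit 1⟩,
  ⟨nat_lit 5, Int.ofNat (nat_lit 87437309168025056), nat_lit 17400963, nat_lit 2⟩,
  ⟨nat_lit 5, Int.ofNat (nat_lit 14268015493768492), nat_lit 17400963, nat_lit 3⟩,
  ⟨nat_lit 5, Int.ofNat (nat_lit 156238801272097632), nat_lit 17400963, nat_lit 4⟩,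
  ⟨nat_lit 5, Int.ofNat (nat_lit 3697936063959142912), nat_lit 17403907, nat_lit 0⟩,
  ⟨nat_lit 5, Int.ofNat (nat_lit 25177429760098244), nat_lit 17403907, nat_lit 1⟩,
  ⟨nat_lit 5, Int.ofNat (nat_lit 41961189632773080), nat_lit 17403907, nat_lit 2⟩,
  ⟨nat_lit 5, Int.ofNat (nat_lit 22712049475685044), nat_lit 17403907, nat_lit 3⟩,
  ⟨nat_lit 5, Int.ofNat (nat_lit 21004865029638984), nat_lit 17403907, nat_lit 4⟩,
  ⟨nat_lit 5, Int.ofNat (nat_lit 6158781619225056), nat_lit 17408003, nat_lit 0⟩,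
  ⟨nat_lit 5, Int.ofNat (nat_lit 34883942623728300), nat_lit 17408003, nat_lit 1⟩,
  ⟨nat_lit 5, Int.ofNat (nat_lit 489766179188280), nat_lit 17408003, nat_lit 2⟩,
  ⟨nat_lit 5, Int.ofNat (nat_lit 3749193638779836), nat_lit 17408003, nat_lit 3⟩,
  ⟨nat_lit 5, Int.ofNat (nat_lit 415437329199124), nat_lit 17408003, nat_lit 4⟩,
  ⟨nat_lit 5, Int.ofNat (nat_lit 4948492686339268608), nat_lit 34177091, nat_lit 0⟩,
  ⟨nat_lit 5, Int.ofNat (nat_lit 9130453545729904), nat_lit 34177091, nat_lit 1⟩,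
  ⟨nat_lit 5, Int.ofNat (nat_lit 302150614605741440), nat_lit 34177091, nat_lit 2⟩,
  ⟨nat_lit 5, Int.ofNat (nat_lit 10601696381917528), nat_lit 34177091, nat_lit 3⟩,
  ⟨nat_lit 5, Int.ofNat (nat_lit 12954648049329504), nat_lit 34177091, nat_lit 4⟩,
  ⟨nat_lit 5, Int.ofNat (nat_lit 1180871962124368), nat_lit 34177155, nat_lit 0⟩,
  ⟨nat_lit 5, Int.ofNat (nat_lit 776317397420444), nat_lit 34177155, nat_lit 1⟩]

def r37 : List RowD := [⟨nat_lit 5, Int.ofNat (nat_lit 1856091382341688), nat_lit 34177155, nat_lit 2⟩,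
  ⟨nat_lit 5, Int.ofNat (nat_lit 68651761417132), nat_lit 34177155, nat_lit 3⟩,
  ⟨nat_lit 5, Int.ofNat (nat_lit 788570182350840), nat_lit 34177155, nat_lit 4⟩,
  ⟨nat_lit 5, Int.ofNat (nat_lit 1614050948113494016), nat_lit 34177603, nat_lit 0⟩,
  ⟨nat_lit 5, Int.ofNat (nat_lit 541527489672420672), nat_lit 34177603, nat_lit 1⟩,
  ⟨nat_lit 5, Int.ofNat (nat_lit 762026156554517504), nat_lit 34177603, nat_lit 4⟩,
  ⟨nat_lit 5, Int.ofNat (nat_lit 55360144316319520), nat_lit 34177667, nat_lit 0⟩,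
  ⟨nat_lit 5, Int.ofNat (nat_lit 12931724248245448), nat_lit 34177667, nat_lit 1⟩,
  ⟨nat_lit 5, Int.ofNat (nat_lit 31670031363725588), nat_lit 34177667, nat_lit 2⟩,
  ⟨nat_lit 5, Int.ofNat (nat_lit 42298593359461120), nat_lit 34177667, nat_lit 3⟩,
  ⟨nat_lit 5, Int.ofNat (nat_lit 12799665202207472), nat_lit 34177667, nat_lit 4⟩,
  ⟨nat_lit 5, Int.ofNat (nat_lit 644022757669448), nat_lit 34178179, nat_lit 0⟩,
  ⟨nat_lit 5, Int.ofNat (nat_lit 1031606077941368), nat_lit 34178179, nat_lit 1⟩,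
  ⟨nat_lit 5, Int.ofNat (nat_lit 1794969305601740), nat_lit 34178179, nat_lit 4⟩,
  ⟨nat_lit 5, Int.ofNat (nat_lit 4311185889125732), nat_lit 34181123, nat_lit 0⟩,
  ⟨nat_lit 5, Int.ofNat (nat_lit 312307170204756), nat_lit 34181123, nat_lit 1⟩,
  ⟨nat_lit 5, Int.ofNat (nat_lit 13265717262958168), nat_lit 34181123, nat_lit 4⟩,
  ⟨nat_lit 5, Int.ofNat (nat_lit 1785908991214368), nat_lit 34185219, nat_lit 0⟩,
  ⟨nat_lit 5, Int.ofNat (nat_lit 1623319118300396), nat_lit 34185219, nat_lit 1⟩,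
  ⟨nat_lit 5, Int.ofNat (nat_lit 1602061536789632), nat_lit 34185219, nat_lit 4⟩]

def pR2_0 : List Src := rowsSrc hS 2 (r0 ++ r1 ++ r2 ++ r3 ++ r4 ++ r5 ++ r6 ++ r7 ++ r8 ++ r9 ++ r10 ++ r11 ++ r12 ++ r13 ++ r14 ++ r15 ++ r16 ++ r17 ++ r18 ++ r19 ++ r20 ++ r21 ++ r22 ++ r23 ++ r24 ++ r25 ++ r26 ++ r27 ++ r28 ++ r29 ++ r30 ++ r31 ++ r32 ++ r33 ++ r34 ++ r35 ++ r36 ++ r37)

def pR3_0 : List Src := rowsSrc hS 3 (r0 ++ r1 ++ r2 ++ r3 ++ r4 ++ r5 ++ r6 ++ r7 ++ r8 ++ r9 ++ r10 ++ r11 ++ r12 ++ r13 ++ r14 ++ r15 ++ r16 ++ r17 ++ r18 ++ r19 ++ r20 ++ r21 ++ r22 ++ r23 ++ r24 ++ r25 ++ r26 ++ r27 ++ r28 ++ r29 ++ r30 ++ r31 ++ r32 ++ r33 ++ r34 ++ r35 ++ r36 ++ r37)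

def pR4_0 : List Src := rowsSrc hS 4 (r0 ++ r1 ++ r2 ++ r3 ++ r4 ++ r5 ++ r6 ++ r7 ++ r8 ++ r9 ++ r10 ++ r11 ++ r12 ++ r13 ++ r14 ++ r15 ++ r16 ++ r17 ++ r18 ++ r19 ++ r20 ++ r21 ++ r22 ++ r23 ++ r24 ++ r25 ++ r26 ++ r27 ++ r28 ++ r29 ++ r30 ++ r31 ++ r32 ++ r33 ++ r34 ++ r35 ++ r36 ++ r37)

def pR5_0 : List Src := rowsSrc hS 5 (r0 ++ r1 ++ r2 ++ r3 ++ r4 ++ r5 ++ r6 ++ r7 ++ r8 ++ r9 ++ r10 ++ r11 ++ r12 ++ r13 ++ r14 ++ r15 ++ r16 ++ r17 ++ r18 ++ r19 ++ r20 ++ r21 ++ r22 ++ r23)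

def pR5_1 : List Src := rowsSrc hS 5 (r24 ++ r25 ++ r26 ++ r27 ++ r28 ++ r29 ++ r30 ++ r31 ++ r32 ++ r33 ++ r34 ++ r35 ++ r36 ++ r37)

def pR6_0 : List Src := rowsSrc hS 6 (r0 ++ r1 ++ r2 ++ r3 ++ r4 ++ r5)

def pR6_1 : List Src := rowsSrc hS 6 (r6)

def pR6_2 : List Src := rowsSrc hS 6 (r7)

def pR6_3 : List Src := rowsSrc hS 6 (r8)

def pR6_4 : List Src := rowsSrc hS 6 (r9)

def pR6_5 : List Src := rowsSrc hS 6 (r10)

def pR6_6 : List Src := rowsSrc hS 6 (r11)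

def pR6_7 : List Src := rowsSrc hS 6 (r12)

def pR6_8 : List Src := rowsSrc hS 6 (r13)

def pR6_9 : List Src := rowsSrc hS 6 (r14)

def pR6_10 : List Src := rowsSrc hS 6 (r15)

def pR6_11 : List Src := rowsSrc hS 6 (r16)

def pR6_12 : List Src := rowsSrc hS 6 (r17)

def pR6_13 : List Src := rowsSrc hS 6 (r18)

def pR6_14 : List Src := rowsSrc hS 6 (r19)

def pR6_15 : List Src := rowsSrc hS 6 (r20)

def pR6_16 : List Src := rowsSrc hS 6 (r21)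

def pR6_17 : List Src := rowsSrc hS 6 (r22)

def pR6_18 : List Src := rowsSrc hS 6 (r23)

def pR6_19 : List Src := rowsSrc hS 6 (r24)

def pR6_20 : List Src := rowsSrc hS 6 (r25)

def pR6_21 : List Src := rowsSrc hS 6 (r26)

def pR6_22 : List Src := rowsSrc hS 6 (r27)

def pR6_23 : List Src := rowsSrc hS 6 (r28)

def pR6_24 : List Src := rowsSrc hS 6 (r29)

def pR6_25 : List Src := rowsSrc hS 6 (r30)

def pR6_26 : List Src := rowsSrc hS 6 (r31)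

def pR6_27 : List Src := rowsSrc hS 6 (r32)

def pR6_28 : List Src := rowsSrc hS 6 (r33)

def pR6_29 : List Src := rowsSrc hS 6 (r34)

def pR6_30 : List Src := rowsSrc hS 6 (r35)

def pR6_31 : List Src := rowsSrc hS 6 (r36)

def pR6_32 : List Src := rowsSrc hS 6 (r37)

def rows : List RowD := r0 ++ r1 ++ r2 ++ r3 ++ r4 ++ r5 ++ r6 ++ r7 ++ r8 ++ r9 ++ r10 ++ r11 ++ r12 ++ r13 ++ r14 ++ r15 ++ r16 ++ r17 ++ r18 ++ r19 ++ r20 ++ r21 ++ r22 ++ r23 ++ r24 ++ r25 ++ r26 ++ r27 ++ r28 ++ r29 ++ r30 ++ r31 ++ r32 ++ r33 ++ r34 ++ r35 ++ r36 ++ r37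

def rs2 : List (List RowD) := [(r0 ++ r1 ++ r2 ++ r3 ++ r4 ++ r5 ++ r6 ++ r7 ++ r8 ++ r9 ++ r10 ++ r11 ++ r12 ++ r13 ++ r14 ++ r15 ++ r16 ++ r17 ++ r18 ++ r19 ++ r20 ++ r21 ++ r22 ++ r23 ++ r24 ++ r25 ++ r26 ++ r27 ++ r28 ++ r29 ++ r30 ++ r31 ++ r32 ++ r33 ++ r34 ++ r35 ++ r36 ++ r37)]

theorem rs2_aux (r0 r1 r2 r3 r4 r5 r6 r7 r8 r9 r10 r11 r12 r13 r14 r15 r16 r17 r18 r19 r20 r21 r22 r23 r24 r25 r26 r27 r28 r29 r30 r31 r32 r33 r34 r35 r36 r37 : List RowD) :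
    [(r0 ++ r1 ++ r2 ++ r3 ++ r4 ++ r5 ++ r6 ++ r7 ++ r8 ++ r9 ++ r10 ++ r11 ++ r12 ++ r13 ++ r14 ++ r15 ++ r16 ++ r17 ++ r18 ++ r19 ++ r20 ++ r21 ++ r22 ++ r23 ++ r24 ++ r25 ++ r26 ++ r27 ++ r28 ++ r29 ++ r30 ++ r31 ++ r32 ++ r33 ++ r34 ++ r35 ++ r36 ++ r37)].flatten = r0 ++ r1 ++ r2 ++ r3 ++ r4 ++ r5 ++ r6 ++ r7 ++ r8 ++ r9 ++ r10 ++ r11 ++ r12 ++ r13 ++ r14 ++ r15 ++ r16 ++ r17 ++ r18 ++ r19 ++ r20 ++ r21 ++ r22 ++ r23 ++ r24 ++ r25 ++ r26 ++ r27 ++ r28 ++ r29 ++ r30 ++ r31 ++ r32 ++ r33 ++ r34 ++ r35 ++ r36 ++ r37 := by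
  simp only [List.flatten_cons, List.flatten_nil, List.append_nil, List.append_assoc]

theorem rs2_eq : rs2.flatten = rows := rs2_aux r0 r1 r2 r3 r4 r5 r6 r7 r8 r9 r10 r11 r12 r13 r14 r15 r16 r17 r18 r19 r20 r21 r22 r23 r24 r25 r26 r27 r28 r29 r30 r31 r32 r33 r34 r35 r36 r37

def rs3 : List (List RowD) := [(r0 ++ r1 ++ r2 ++ r3 ++ r4 ++ r5 ++ r6 ++ r7 ++ r8 ++ r9 ++ r10 ++ r11 ++ r12 ++ r13 ++ r14 ++ r15 ++ r16 ++ r17 ++ r18 ++ r19 ++ r20 ++ r21 ++ r22 ++ r23 ++ r24 ++ r25 ++ r26 ++ r27 ++ r28 ++ r29 ++ r30 ++ r31 ++ r32 ++ r33 ++ r34 ++ r35 ++ r36 ++ r37)]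

theorem rs3_aux (r0 r1 r2 r3 r4 r5 r6 r7 r8 r9 r10 r11 r12 r13 r14 r15 r16 r17 r18 r19 r20 r21 r22 r23 r24 r25 r26 r27 r28 r29 r30 r31 r32 r33 r34 r35 r36 r37 : List RowD) :
    [(r0 ++ r1 ++ r2 ++ r3 ++ r4 ++ r5 ++ r6 ++ r7 ++ r8 ++ r9 ++ r10 ++ r11 ++ r12 ++ r13 ++ r14 ++ r15 ++ r16 ++ r17 ++ r18 ++ r19 ++ r20 ++ r21 ++ r22 ++ r23 ++ r24 ++ r25 ++ r26 ++ r27 ++ r28 ++ r29 ++ r30 ++ r31 ++ r32 ++ r33 ++ r34 ++ r35 ++ r36 ++ r37)].flatten = r0 ++ r1 ++ r2 ++ r3 ++ r4 ++ r5 ++ r6 ++ r7 ++ r8 ++ r9 ++ r10 ++ r11 ++ r12 ++ r13 ++ r14 ++ r15 ++ r16 ++ r17 ++ r18 ++ r19 ++ r20 ++ r21 ++ r22 ++ r23 ++ r24 ++ r25 ++ r26 ++ r27 ++ r28 ++ r29 ++ r30 ++ r31 ++ r32 ++ r33 ++ r34 ++ r35 ++ r36 ++ r37 := by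
  simp only [List.flatten_cons, List.flatten_nil, List.append_nil, List.append_assoc]

theorem rs3_eq : rs3.flatten = rows := rs3_aux r0 r1 r2 r3 r4 r5 r6 r7 r8 r9 r10 r11 r12 r13 r14 r15 r16 r17 r18 r19 r20 r21 r22 r23 r24 r25 r26 r27 r28 r29 r30 r31 r32 r33 r34 r35 r36 r37

def rs4 : List (List RowD) := [(r0 ++ r1 ++ r2 ++ r3 ++ r4 ++ r5 ++ r6 ++ r7 ++ r8 ++ r9 ++ r10 ++ r11 ++ r12 ++ r13 ++ r14 ++ r15 ++ r16 ++ r17 ++ r18 ++ r19 ++ r20 ++ r21 ++ r22 ++ r23 ++ r24 ++ r25 ++ r26 ++ r27 ++ r28 ++ r29 ++ r30 ++ r31 ++ r32 ++ r33 ++ r34 ++ r35 ++ r36 ++ r37)]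

theorem rs4_aux (r0 r1 r2 r3 r4 r5 r6 r7 r8 r9 r10 r11 r12 r13 r14 r15 r16 r17 r18 r19 r20 r21 r22 r23 r24 r25 r26 r27 r28 r29 r30 r31 r32 r33 r34 r35 r36 r37 : List RowD) :
    [(r0 ++ r1 ++ r2 ++ r3 ++ r4 ++ r5 ++ r6 ++ r7 ++ r8 ++ r9 ++ r10 ++ r11 ++ r12 ++ r13 ++ r14 ++ r15 ++ r16 ++ r17 ++ r18 ++ r19 ++ r20 ++ r21 ++ r22 ++ r23 ++ r24 ++ r25 ++ r26 ++ r27 ++ r28 ++ r29 ++ r30 ++ r31 ++ r32 ++ r33 ++ r34 ++ r35 ++ r36 ++ r37)].flatten = r0 ++ r1 ++ r2 ++ r3 ++ r4 ++ r5 ++ r6 ++ r7 ++ r8 ++ r9 ++ r10 ++ r11 ++ r12 ++ r13 ++ r14 ++ r15 ++ r16 ++ r17 ++ r18 ++ r19 ++ r20 ++ r21 ++ r22 ++ r23 ++ r24 ++ r25 ++ r26 ++ r27 ++ r28 ++ r29 ++ r30 ++ r31 ++ r32 ++ r33 ++ r34 ++ r35 ++ r36 ++ r37 := by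
  simp only [List.flatten_cons, List.flatten_nil, List.append_nil, List.append_assoc]

theorem rs4_eq : rs4.flatten = rows := rs4_aux r0 r1 r2 r3 r4 r5 r6 r7 r8 r9 r10 r11 r12 r13 r14 r15 r16 r17 r18 r19 r20 r21 r22 r23 r24 r25 r26 r27 r28 r29 r30 r31 r32 r33 r34 r35 r36 r37

def rs5 : List (List RowD) := [(r0 ++ r1 ++ r2 ++ r3 ++ r4 ++ r5 ++ r6 ++ r7 ++ r8 ++ r9 ++ r10 ++ r11 ++ r12 ++ r13 ++ r14 ++ r15 ++ r16 ++ r17 ++ r18 ++ r19 ++ r20 ++ r21 ++ r22 ++ r23), (r24 ++ r25 ++ r26 ++ r27 ++ r28 ++ r29 ++ r30 ++ r31 ++ r32 ++ r33 ++ r34 ++ r35 ++ r36 ++ r37)]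

theorem rs5_aux (r0 r1 r2 r3 r4 r5 r6 r7 r8 r9 r10 r11 r12 r13 r14 r15 r16 r17 r18 r19 r20 r21 r22 r23 r24 r25 r26 r27 r28 r29 r30 r31 r32 r33 r34 r35 r36 r37 : List RowD) :
    [(r0 ++ r1 ++ r2 ++ r3 ++ r4 ++ r5 ++ r6 ++ r7 ++ r8 ++ r9 ++ r10 ++ r11 ++ r12 ++ r13 ++ r14 ++ r15 ++ r16 ++ r17 ++ r18 ++ r19 ++ r20 ++ r21 ++ r22 ++ r23), (r24 ++ r25 ++ r26 ++ r27 ++ r28 ++ r29 ++ r30 ++ r31 ++ r32 ++ r33 ++ r34 ++ r35 ++ r36 ++ r37)].flatten = r0 ++ r1 ++ r2 ++ r3 ++ r4 ++ r5 ++ r6 ++ r7 ++ r8 ++ r9 ++ r10 ++ r11 ++ r12 ++ r13 ++ r14 ++ r15 ++ r16 ++ r17 ++ r18 ++ r19 ++ r20 ++ r21 ++ r22 ++ r23 ++ r24 ++ r25 ++ r26 ++ r27 ++ r28 ++ r29 ++ r30 ++ r31 ++ r32 ++ r33 ++ r34 ++ r35 ++ r36 ++ r37 := by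
  simp only [List.flatten_cons, List.flatten_nil, List.append_nil, List.append_assoc]

theorem rs5_eq : rs5.flatten = rows := rs5_aux r0 r1 r2 r3 r4 r5 r6 r7 r8 r9 r10 r11 r12 r13 r14 r15 r16 r17 r18 r19 r20 r21 r22 r23 r24 r25 r26 r27 r28 r29 r30 r31 r32 r33 r34 r35 r36 r37

def rs6 : List (List RowD) := [(r0 ++ r1 ++ r2 ++ r3 ++ r4 ++ r5), r6, r7, r8, r9, r10, r11, r12, r13, r14, r15, r16, r17, r18, r19, r20, r21, r22, r23, r24, r25, r26, r27, r28, r29, r30, r31, r32, r33, r34, r35, r36, r37]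

theorem rs6_aux (r0 r1 r2 r3 r4 r5 r6 r7 r8 r9 r10 r11 r12 r13 r14 r15 r16 r17 r18 r19 r20 r21 r22 r23 r24 r25 r26 r27 r28 r29 r30 r31 r32 r33 r34 r35 r36 r37 : List RowD) :
    [(r0 ++ r1 ++ r2 ++ r3 ++ r4 ++ r5), r6, r7, r8, r9, r10, r11, r12, r13, r14, r15, r16, r17, r18, r19, r20, r21, r22, r23, r24, r25, r26, r27, r28, r29, r30, r31, r32, r33, r34, r35, r36, r37].flatten = r0 ++ r1 ++ r2 ++ r3 ++ r4 ++ r5 ++ r6 ++ r7 ++ r8 ++ r9 ++ r10 ++ r11 ++ r12 ++ r13 ++ r14 ++ r15 ++ r16 ++ r17 ++ r18 ++ r19 ++ r20 ++ r21 ++ r22 ++ r23 ++ r24 ++ r25 ++ r26 ++ r27 ++ r28 ++ r29 ++ r30 ++ r31 ++ r32 ++ r33 ++ r34 ++ r35 ++ r36 ++ r37 := by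
  simp only [List.flatten_cons, List.flatten_nil, List.append_nil, List.append_assoc]

theorem rs6_eq : rs6.flatten = rows := rs6_aux r0 r1 r2 r3 r4 r5 r6 r7 r8 r9 r10 r11 r12 r13 r14 r15 r16 r17 r18 r19 r20 r21 r22 r23 r24 r25 r26 r27 r28 r29 r30 r31 r32 r33 r34 r35 r36 r37

theorem rows_ok : (rows.all fun x => x.ok false 6) = true := by decide +kernel

end MP433Sys.TFC
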