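import Pool.Agent.Work.MP_433a35_co.GB.TFC.KT2
import Pool.Agent.Work.MP_433a35_co.GB.TFC.T
import Pool.Agent.Work.MP_433a35_co.GB.TFC.D0
import Pool.Agent.Work.MP_433a35_co.GB.TFC.R

set_option maxRecDepth 100000
set_option linter.unusedVariables false

namespace MP433Sys.TFC

def cfg2 : Cfg where
  k := 2
  n := 1
  b := 6
  sh := 0
  nb := 6
  MW := 0x3f
  MB := 0x3f
  RS := 0x1
  MS := 0x7
  xb := 128
  MX := 0xffffffffffffffffffffffffffffffff
  eW := 0
  e := 0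
  qm := 0
  pm := 1
  fgm := 28
  jn := []
  tf := false
  dq := 16382
  alt := [0, 1, 2]
  nfd := 3
  nalt := 3
  tw := tw2
  tt := tt2

def ws2 : List (ℕ × ℕ) := [(0, 8),
 (0, 1)]

theorem cfg2_c : cfgOK hS cfg2 = true := by decide +kernel

theorem cfg2_t : tabOK cfg2 ws2 0 = true := by decide +kernel

theorem cfg2_ok : cfg2.Ok hS := cfg_ok hS cfg2 ws2 cfg2_c cfg2_t

end MP433Sys.TFC
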