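import Pool.Agent.Work.MP_433a35_co.GB.TFC.KT3
import Pool.Agent.Work.MP_433a35_co.GB.TFC.T
import Pool.Agent.Work.MP_433a35_co.GB.TFC.D0
import Pool.Agent.Work.MP_433a35_co.GB.TFC.R

set_option maxRecDepth 100000
set_option linter.unusedVariables false

namespace MP433Sys.TFC

def cfg3 : Cfg where
  k := 3
  n := 3
  b := 12
  sh := 24
  nb := 36
  MW := 0xfffffffff
  MB := 0xfff
  RS := 0x40201
  MS := 0x7007007
  xb := 128
  MX := 0xffffffffffffffffffffffffffffffff
  eW := 0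
  e := 0
  qm := 0
  pm := 7
  fgm := 28
  jn := []
  tf := true
  dq := 16382
  alt := [0, 1, 2]
  nfd := 3
  nalt := 3
  tw := tw3
  tt := tt3

def ws3 : List (ℕ × ℕ) := [(0x820, 136),
 (0x801, 80),
 (0x440, 129),
 (0x402, 17),
 (0x41, 66),
 (0x22, 10),
 (0x820, 136),
 (0x820, 136)]

theorem cfg3_c : cfgOK hS cfg3 = true := by decide +kernel

theorem cfg3_t : tabOK cfg3 ws3 0 = true := by decide +kernel

theorem cfg3_ok : cfg3.Ok hS := cfg_ok hS cfg3 ws3 cfg3_c cfg3_t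

end MP433Sys.TFC
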