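import Pool.Agent.Work.MP_433a35_co.GB.TFC.KT4
import Pool.Agent.Work.MP_433a35_co.GB.TFC.T
import Pool.Agent.Work.MP_433a35_co.GB.TFC.D0
import Pool.Agent.Work.MP_433a35_co.GB.TFC.D1
import Pool.Agent.Work.MP_433a35_co.GB.TFC.D2
import Pool.Agent.Work.MP_433a35_co.GB.TFC.D3
import Pool.Agent.Work.MP_433a35_co.GB.TFC.D4
import Pool.Agent.Work.MP_433a35_co.GB.TFC.D5
import Pool.Agent.Work.MP_433a35_co.GB.TFC.D6
import Pool.Agent.Work.MP_433a35_co.GB.TFC.D7
import Pool.Agent.Work.MP_433a35_co.GB.TFC.D8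
import Pool.Agent.Work.MP_433a35_co.GB.TFC.D9
import Pool.Agent.Work.MP_433a35_co.GB.TFC.D10
import Pool.Agent.Work.MP_433a35_co.GB.TFC.D11
import Pool.Agent.Work.MP_433a35_co.GB.TFC.D12
import Pool.Agent.Work.MP_433a35_co.GB.TFC.R

set_option maxRecDepth 100000
set_option linter.unusedVariables false

namespace MP433Sys.TFC

def cfg4 : Cfg where
  k := 4
  n := 6
  b := 21
  sh := 105
  nb := 126
  MW := 0x3fffffffffffffffffffffffffffffff
  MB := 0x1fffff
  RS := 0x40001000040001000040001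
  MS := 0xe000070000380001c0000e00007
  xb := 128
  MX := 0xffffffffffffffffffffffffffffffff
  eW := 1
  e := 0
  qm := 0
  pm := 31
  fgm := 28
  jn := []
  tf := true
  dq := 16382
  alt := [0, 1, 2]
  nfd := 3
  nalt := 3
  tw := tw4
  tt := tt4

def ws4 : List (ℕ × ℕ) := [(0xa418820, 1672),
 (0xa209060, 1224),
 (0x8518801, 1616),
 (0x8201461, 720),
 (0x4509003, 1112),
 (0x4401423, 664),
 (0xa320440, 1665),
 (0xa110c80, 1217),
 (0x6520402, 1553),
 (0x6101482, 209),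
 (0x2510c04, 1049),
 (0x2301444, 153),
 (0x8328041, 1602),
 (0x8010ca1, 706),
 (0x6428022, 1546),
 (0x60090a2, 202),
 (0x410c25, 538),
 (0x309045, 90),
 (0x4128083, 1091),
 (0x40204a3, 643),
 (0x2228064, 1035),
 (0x20188a4, 139),
 (0x220465, 531),
 (0x118885, 83),
 (0xa418820, 1672),
 (0xa418820, 1672),
 (0xa418820, 1672),
 (0xa418820, 1672),
 (0xa418820, 1672),
 (0xa418820, 1672),
 (0xa418820, 1672),
 (0xa418820, 1672)]

theorem cfg4_c : cfgOK hS cfg4 = true := by decide +kernel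

theorem cfg4_t : tabOK cfg4 ws4 0 = true := by decide +kernel

theorem cfg4_ok : cfg4.Ok hS := cfg_ok hS cfg4 ws4 cfg4_c cfg4_t

end MP433Sys.TFC
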