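import Pool.Agent.Work.MP_433a35_co.GB.TFC.KC2_0

set_option maxRecDepth 100000
set_option linter.unusedVariables false

namespace MP433Sys.TFC

def chs2 : List (List Chunk) := [ch2_0]

theorem good2 {V : Type*} [Fintype V] (T : Sys hS V) (hT : Hyp T cfg2) :
    ∀ x ∈ chs2.flatten, x.good T cfg2 :=
  kall_flat (good2_0 T hT) (kall_nil _)

theorem len2 : ∀ x ∈ chs2.flatten, x.R.length ≤ 1 :=
  kall_flat (klen_all len2_0) (kall_nil _)

end MP433Sys.TFC
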