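import Pool.Agent.Work.MP_433a35_co.GB.TFC.KC6_0
import Pool.Agent.Work.MP_433a35_co.GB.TFC.KC6_1
import Pool.Agent.Work.MP_433a35_co.GB.TFC.KC6_2
import Pool.Agent.Work.MP_433a35_co.GB.TFC.KC6_3
import Pool.Agent.Work.MP_433a35_co.GB.TFC.KC6_4
import Pool.Agent.Work.MP_433a35_co.GB.TFC.KC6_5

set_option maxRecDepth 100000
set_option linter.unusedVariables false

namespace MP433Sys.TFC

def chs6 : List (List Chunk) := [ch6_0, ch6_1, ch6_2, ch6_3, ch6_4, ch6_5]

theorem good6 {V : Type*} [Fintype V] (T : Sys hS V) (hT : Hyp T cfg6) :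
    ∀ x ∈ chs6.flatten, x.good T cfg6 :=
  kall_flat (good6_0 T hT) (kall_flat (good6_1 T hT) (kall_flat (good6_2 T hT) (kall_flat (good6_3 T hT) (kall_flat (good6_4 T hT) (kall_flat (good6_5 T hT) (kall_nil _))))))

theorem len6 : ∀ x ∈ chs6.flatten, x.R.length ≤ 2 :=
  kall_flat (klen_all len6_0) (kall_flat (klen_all len6_1) (kall_flat (klen_all len6_2) (kall_flat (klen_all len6_3) (kall_flat (klen_all len6_4) (kall_flat (klen_all len6_5) (kall_nil _))))))

end MP433Sys.TFC
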