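import Pool.Agent.Work.MP_433a35_co.GB.Sys.Ker

set_option maxRecDepth 100000
set_option linter.unusedVariables false

namespace MP433Sys.TFC

def tt2_0 : Tree 0 :=
 (nat_lit 0x4 : ℕ)

def tt2 : Tree 0 :=
 tt2_0

def tw2 : Tree 0 :=
 (nat_lit 0x41 : ℕ)

end MP433Sys.TFC
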