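import Pool.Agent.Work.MP_433a35_co.GB.Sys.Ker

set_option maxRecDepth 100000
set_option linter.unusedVariables false

namespace MP433Sys.TFC

def tt3_0 : Tree 0 :=
 (nat_lit 0x4402201b : ℕ)

def tt3 : Tree 0 :=
 tt3_0

def tw3 : Tree 0 :=
 (nat_lit 0x1008040001008040040008001040001008008040001001040008008001040001008040 : ℕ)

end MP433Sys.TFC
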