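import Pool.Agent.Work.MP_433a35_co.GB.Sys.Ker

set_option maxRecDepth 100000
set_option linter.unusedVariables false

namespace MP433Sys.TFC

def tt4_0 : Tree 0 :=
 (nat_lit 0x10801084004409002024110120060b0830580106c108280841210204880848401a6800c30806182028080136800908002d900165800a10004a8002088006c200360801a0c0082800222 : ℕ)

def tt4 : Tree 0 :=
 tt4_0

def tw4 : Tree 1 :=
 ((nat_lit 0x8000200008000200008000200000000200008000200008000200008000000008000200008000200008000200000000200008000200008000200008000040000001000200000008001000000040008008000008000000200000200200000200040001000000001000040008001000000008001000001000200000001000200000200000208000008000008000008000001000040040001000000200000040200000040000040000008040000001000040000008200000040001000000008001000001001000001000200000001000200040000000040008001000000040000040008000200040000040000000200008000200008000200008000 : ℕ), (nat_lit 0x8000200008000200008000200000000200008000200008000200008000000008000200008000200008000200000000200008000200008000200008000040000040000008000200000040000040200008000000200008000000200008008000001001000000001001000000201000000200000040040000008000001008000008000000208000000200000200200000001001000001001000000008001000200000001001000000008001000040001000000008200000001000040000008040000040000040000040200000040000008040000000040200000040001000000040200000008040000001000000200200008000000200008008000 : ℕ))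

end MP433Sys.TFC
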