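import Pool.Agent.Work.MP_433a35_co.GB.TFC.D0
import Pool.Agent.Work.MP_433a35_co.GB.TFC.D1
import Pool.Agent.Work.MP_433a35_co.GB.TFC.D2
import Pool.Agent.Work.MP_433a35_co.GB.TFC.D3
import Pool.Agent.Work.MP_433a35_co.GB.TFC.D4
import Pool.Agent.Work.MP_433a35_co.GB.TFC.D5
import Pool.Agent.Work.MP_433a35_co.GB.TFC.D6
import Pool.Agent.Work.MP_433a35_co.GB.TFC.D7
import Pool.Agent.Work.MP_433a35_co.GB.TFC.D8
import Pool.Agent.Work.MP_433a35_co.GB.TFC.D9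
import Pool.Agent.Work.MP_433a35_co.GB.TFC.D10
import Pool.Agent.Work.MP_433a35_co.GB.TFC.D11
import Pool.Agent.Work.MP_433a35_co.GB.TFC.D12
import Pool.Agent.Work.MP_433a35_co.GB.TFC.R
import Pool.Agent.Work.MP_433a35_co.GB.TFC.T

/-! generated data: the parts -/

set_option linter.style.longLine false

namespace MP433Sys.TFC

def blks : List BlkD := [b0, b1, b2, b3, b4, b5, b6, b7, b8, b9, b10, b11, b12]

def bs2 : List (BlkD × List ℕ) := [(b0, []), (b1, []), (b2, []), (b3, []), (b4, []), (b5, []), (b6, []), (b7, []), (b8, []), (b9, []), (b10, []), (b11, []), (b12, [])]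

theorem parts2 : parts hS (tgtG hS 3 4 (nat_lit 2305843009213693952) (nat_lit 4611686018427387904)) 2 bs2 rs2 =
    [pT2, p2_0_0, pR2_0] := rfl

def bs3 : List (BlkD × List ℕ) := [(b0, []), (b1, []), (b2, []), (b3, []), (b4, []), (b5, []), (b6, []), (b7, []), (b8, []), (b9, []), (b10, []), (b11, []), (b12, [])]

theorem parts3 : parts hS (tgtG hS 3 4 (nat_lit 2305843009213693952) (nat_lit 4611686018427387904)) 3 bs3 rs3 =
    [pT3, p3_0_0, pR3_0] := rfl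

def bs4 : List (BlkD × List ℕ) := [(b0, []), (b1, []), (b2, []), (b3, []), (b4, []), (b5, []), (b6, []), (b7, []), (b8, []), (b9, []), (b10, []), (b11, []), (b12, [])]

theorem parts4 : parts hS (tgtG hS 3 4 (nat_lit 2305843009213693952) (nat_lit 4611686018427387904)) 4 bs4 rs4 =
    [pT4, p4_0_0, p4_1_0, p4_2_0, p4_3_0, p4_4_0, p4_5_0, p4_6_0, p4_7_0, p4_8_0, p4_9_0, p4_10_0, p4_11_0, p4_12_0, pR4_0] := rfl

def bs5 : List (BlkD × List ℕ) := [(b0, []), (b1, []), (b2, []), (b3, []), (b4, []), (b5, []), (b6, []), (b7, []), (b8, []), (b9, []), (b10, []), (b11, []), (b12, [])]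

theorem parts5 : parts hS (tgtG hS 3 4 (nat_lit 2305843009213693952) (nat_lit 4611686018427387904)) 5 bs5 rs5 =
    [pT5, p5_0_0, p5_1_0, p5_2_0, p5_3_0, p5_4_0, p5_5_0, p5_6_0, p5_7_0, p5_8_0, p5_9_0, p5_10_0, p5_11_0, p5_12_0, pR5_0, pR5_1] := rfl

def bs6 : List (BlkD × List ℕ) := [(b0, [8, 1, 1, 1, 1, 1, 1, 1, 1, 1, 1, 1, 1, 1, 1, 1, 1, 1, 1, 1, 1, 1, 1, 2, 2, 2, 2, 2, 3, 3, 4, 8]), (b1, []), (b2, [30]), (b3, [18, 18, 24]), (b4, []), (b5, []), (b6, [34]), (b7, []), (b8, []), (b9, []), (b10, []), (b11, [24, 38]), (b12, [45])]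

theorem parts6 : parts hS (tgtG hS 3 4 (nat_lit 2305843009213693952) (nat_lit 4611686018427387904)) 6 bs6 rs6 =
    [pT6, p6_0_0, p6_0_1, p6_0_2, p6_0_3, p6_0_4, p6_0_5, p6_0_6, p6_0_7, p6_0_8, p6_0_9, p6_0_10, p6_0_11, p6_0_12, p6_0_13, p6_0_14, p6_0_15, p6_0_16, p6_0_17, p6_0_18, p6_0_19, p6_0_20, p6_0_21, p6_0_22, p6_0_23, p6_0_24, p6_0_25, p6_0_26, p6_0_27, p6_0_28, p6_0_29, p6_0_30, p6_0_31, p6_0_32, p6_1_0, p6_2_0, p6_2_1, p6_3_0, p6_3_1, p6_3_2, p6_3_3, p6_4_0, p6_5_0, p6_6_0, p6_6_1, p6_7_0, p6_8_0, p6_9_0, p6_10_0, p6_11_0, p6_11_1, p6_11_2, p6_12_0, p6_12_1, pR6_0, pR6_1, pR6_2, pR6_3, pR6_4, pR6_5, pR6_6, pR6_7, pR6_8, pR6_9, pR6_10, pR6_11, pR6_12, pR6_13, pR6_14, pR6_15, pR6_16, pR6_17, pR6_18, pR6_19, pR6_20, pR6_21, pR6_22, pR6_23, pR6_24, pR6_25, pR6_26, pR6_27, pR6_28, pR6_29, pR6_30, pR6_31, pR6_32] := rfl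

end MP433Sys.TFC
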